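import Pool.Agent.Helper69.WC.Iso

/-!
# Project WD, module I: isoperimetry on residues, sharp form

PROOF of `cyc2`.  (1) all `2 x r ≤ d`: then `2 y r ≥ d`, so `2 Σ x r y (r+1) ≥ d Σ x r`, `4 E ≥ d²`.
(2) all `2 y r ≤ d`: the same with `h2`.  (3) otherwise some `2 x r > d` and some `2 y s > d`.  If there is
`r` with `2 x r ≥ d` and `2 y (r+1) ≥ d`, then `4 E ≥ 4 x r y (r+1) ≥ d²` (one term of `h1`).
If not: from `2 x r ≥ d` follows `2 y (r+1) < d`, so `2 x (r+1) > d`; around the cycle all `2 y < d`,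
a contradiction (the walk around the cycle is in `h69_cyc`, `Pool/Agent/Helper69/WC/Iso.lean`).

PROOF of `iso2`.  As `iso` in `Pool/Agent/Helper69/WC/Iso.lean` (copy it): the case `2 |X| ≤ d` gives
`|X| d ≤ 2 E`.  Otherwise `x r = |fib X r|`, `y r = |fib (D \ X) r|`; `h1`, `h2` as in the first case
there (`Σ_r x r y (r+1) = Σ_{x ∈ X} |fib (D \ X) (rs x + 1)| ≤ E`, pairs `rs y = rs x + 1`, and the pairs
`rs x = rs y + 1`), and `|X| ≤ 2 d L`, so `|X| d ≤ 2 L d² ≤ 8 L E`.
-/

set_option autoImplicit false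

namespace Pool.Agent.Helper72.WD

open Finset Pool.Agent.Helper72.WC

variable {n : ℕ}

private theorem wd_Iso_small {L d E : ℕ} [NeZero L] {x y : ZMod L → ℕ}
    (hxy : ∀ r, d ≤ x r + y r) (h1 : ∑ r, x r * y (r + 1) ≤ E) (hx : d ≤ 2 * ∑ r, x r)
    (hs : ∀ r, 2 * x r ≤ d) : d ^ 2 ≤ 4 * E := by
  have h2 : ∑ r, x r * d ≤ ∑ r, 2 * (x r * y (r + 1)) := by
    refine Finset.sum_le_sum fun r _ => ?_
    have e1 : d ≤ 2 * y (r + 1) := by
      have e2 := hxy (r + 1)
      have e3 := hs (r + 1)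
      omega
    calc x r * d ≤ x r * (2 * y (r + 1)) := Nat.mul_le_mul_left _ e1
      _ = 2 * (x r * y (r + 1)) := by ring
  rw [← Finset.sum_mul, ← Finset.mul_sum] at h2
  calc d ^ 2 = d * d := by ring
    _ ≤ 2 * (∑ r, x r) * d := Nat.mul_le_mul_right _ hx
    _ = 2 * ((∑ r, x r) * d) := by ring
    _ ≤ 2 * (2 * ∑ r, x r * y (r + 1)) := Nat.mul_le_mul_left _ h2
    _ = 4 * ∑ r, x r * y (r + 1) := by ring
    _ ≤ 4 * E := Nat.mul_le_mul_left _ h1

/-- The combinatorial core. -/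
theorem cyc2 {L d E : ℕ} [NeZero L] {x y : ZMod L → ℕ} (hxy : ∀ r, d ≤ x r + y r)
    (h1 : ∑ r, x r * y (r + 1) ≤ E) (h2 : ∑ r, y r * x (r + 1) ≤ E)
    (hx : d ≤ 2 * ∑ r, x r) (hy : d ≤ 2 * ∑ r, y r) : d ^ 2 ≤ 4 * E := by
  by_cases c1 : ∀ r, 2 * x r ≤ d
  · exact wd_Iso_small hxy h1 hx c1
  by_cases c2 : ∀ r, 2 * y r ≤ d
  · exact wd_Iso_small (fun r => by rw [add_comm]; exact hxy r) h2 hy c2
  push Not at c1 c2
  obtain ⟨r0, hr0⟩ := c1
  obtain ⟨s, hs⟩ := c2
  by_cases c3 : ∃ r, d ≤ 2 * x r ∧ d ≤ 2 * y (r + 1)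
  · obtain ⟨r, e1, e2⟩ := c3
    have h3 : x r * y (r + 1) ≤ ∑ r, x r * y (r + 1) :=
      Finset.single_le_sum (f := fun r => x r * y (r + 1)) (fun _ _ => Nat.zero_le _)
        (Finset.mem_univ r)
    calc d ^ 2 = d * d := by ring
      _ ≤ (2 * x r) * (2 * y (r + 1)) := Nat.mul_le_mul e1 e2
      _ = 4 * (x r * y (r + 1)) := by ring
      _ ≤ 4 * E := Nat.mul_le_mul_left _ (h3.trans h1)
  · exfalso
    push Not at c3
    have hall : ∀ m : ℕ, d ≤ 2 * x (r0 + (m : ZMod L)) := by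
      intro m
      induction m with
      | zero =>
        rw [Nat.cast_zero, add_zero]
        exact hr0.le
      | succ m ih =>
        have e1 := c3 _ ih
        have e2 := hxy (r0 + (m : ZMod L) + 1)
        rw [Nat.cast_add, Nat.cast_one, ← add_assoc]
        omega
    have h3 := c3 _ (hall (s - r0 - 1).val)
    rw [ZMod.natCast_zmod_val] at h3
    have h4 : r0 + (s - r0 - 1) + 1 = s := by ring
    rw [h4] at h3
    omega

private theorem wd_Iso_prod {L E : ℕ} [NeZero L] (X Y : Finset (Fin n))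
    (g : ZMod L → ZMod L) (S : Finset (Fin n × Fin n)) (hS : S.card = E)
    (f : Fin n × Fin n → Fin n × Fin n) (hf : Function.Injective f)
    (h : ∀ x ∈ X, ∀ y ∈ Y, rs L y = g (rs L x) → f (x, y) ∈ S) :
    ∑ r, (fib L X r).card * (fib L Y (g r)).card ≤ E := by
  rw [← hS]
  have h1 : ∑ r, (fib L X r).card * (fib L Y (g r)).card =
      ((Finset.univ : Finset (ZMod L)).sigma fun r => fib L X r ×ˢ fib L Y (g r)).card := by
    rw [Finset.card_sigma]
    exact Finset.sum_congr rfl fun r _ => (Finset.card_product _ _).symm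
  rw [h1]
  refine Finset.card_le_card_of_injOn (fun p => f p.2) ?_ ?_
  · rintro ⟨r, x, y⟩ hp
    have hp' := Finset.mem_product.1 (Finset.mem_sigma.1 (Finset.mem_coe.1 hp)).2
    have a1 := Finset.mem_filter.1 hp'.1
    have a2 := Finset.mem_filter.1 hp'.2
    exact Finset.mem_coe.2 (h x a1.1 y a2.1 (by rw [a1.2]; exact a2.2))
  · rintro ⟨r, x, y⟩ hp ⟨r', x', y'⟩ hp' he
    have hp1 := Finset.mem_product.1 (Finset.mem_sigma.1 (Finset.mem_coe.1 hp)).2
    have hp2 := Finset.mem_product.1 (Finset.mem_sigma.1 (Finset.mem_coe.1 hp')).2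
    have a1 := (Finset.mem_filter.1 hp1.1).2
    have a2 := (Finset.mem_filter.1 hp2.1).2
    have he' : (x, y) = (x', y') := hf he
    have e1 : x = x' := congrArg Prod.fst he'
    have e2 : y = y' := congrArg Prod.snd he'
    subst e1 e2
    have e3 : r = r' := a1.symm.trans a2
    subst e3
    rfl

theorem iso2 {L d : ℕ} [NeZero L] {D X : Finset (Fin n)} (hX : X ⊆ D)
    (hlo : ∀ r, d ≤ (fib L D r).card) (hup : ∀ r, (fib L D r).card ≤ 2 * d)
    (hsz : d ≤ 2 * (D \ X).card) :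
    X.card * d ≤
      8 * L * ((X ×ˢ (D \ X)).filter fun p => relA L p.1 p.2).card := by
  have hL : 0 < L := Nat.pos_of_ne_zero (NeZero.ne L)
  set E := ((X ×ˢ (D \ X)).filter fun p => relA L p.1 p.2).card with hE
  have hsum : ∀ r, (fib L X r).card + (fib L (D \ X) r).card = (fib L D r).card := by
    intro r
    have h1 : fib L D r = fib L X r ∪ fib L (D \ X) r := by
      unfold fib
      rw [← Finset.filter_union, Finset.union_sdiff_of_subset hX]
    rw [h1, Finset.card_union_of_disjoint]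
    unfold fib
    exact Finset.disjoint_filter_filter Finset.disjoint_sdiff
  by_cases hc : 2 * X.card ≤ d
  · -- few vertices
    have h1 : ∑ x ∈ X, (fib L (D \ X) (rs L x + 1)).card ≤ E := by
      rw [hE, ← Finset.card_sigma]
      refine Finset.card_le_card_of_injOn (fun p => (p.1, p.2)) ?_ ?_
      · rintro ⟨x, y⟩ hp
        have hp' := Finset.mem_sigma.1 (Finset.mem_coe.1 hp)
        have hy := Finset.mem_filter.1 hp'.2
        exact Finset.mem_coe.2 (Finset.mem_filter.2
          ⟨Finset.mem_product.2 ⟨hp'.1, hy.1⟩, Or.inl hy.2⟩)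
      · rintro ⟨x, y⟩ _ ⟨x', y'⟩ _ h
        have h1 : x = x' := congrArg Prod.fst h
        have h2 : y = y' := congrArg Prod.snd h
        rw [h1, h2]
    have h2 : ∑ x ∈ X, d ≤ ∑ x ∈ X, 2 * (fib L (D \ X) (rs L x + 1)).card := by
      refine Finset.sum_le_sum fun x _ => ?_
      have e1 := hsum (rs L x + 1)
      have e2 := hlo (rs L x + 1)
      have e3 : (fib L X (rs L x + 1)).card ≤ X.card := Finset.card_filter_le _ _
      omega
    rw [Finset.sum_const, smul_eq_mul, ← Finset.mul_sum] at h2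
    calc X.card * d ≤ 2 * E := h2.trans (Nat.mul_le_mul_left _ h1)
      _ ≤ 8 * L * E := by
        refine Nat.mul_le_mul_right _ ?_
        omega
  · have key : d ^ 2 ≤ 4 * E := by
      refine cyc2 (L := L) (x := fun r => (fib L X r).card)
        (y := fun r => (fib L (D \ X) r).card) (fun r => ?_) ?_ ?_ ?_ ?_
      · show d ≤ (fib L X r).card + (fib L (D \ X) r).card
        rw [hsum r]
        exact hlo r
      · exact wd_Iso_prod X (D \ X) (fun r => r + 1) _ hE.symm id Function.injective_id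
          fun x hx y hy h => Finset.mem_filter.2 ⟨Finset.mem_product.2 ⟨hx, hy⟩, Or.inl h⟩
      · exact wd_Iso_prod (D \ X) X (fun r => r + 1) _ hE.symm Prod.swap
          Prod.swap_injective
          fun x hx y hy h => Finset.mem_filter.2 ⟨Finset.mem_product.2 ⟨hy, hx⟩, Or.inr h⟩
      · show d ≤ 2 * ∑ r, (fib L X r).card
        rw [h69_sum_fib]
        omega
      · show d ≤ 2 * ∑ r, (fib L (D \ X) r).card
        rw [h69_sum_fib]
        exact hsz
    have hXc : X.card ≤ 2 * d * L := by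
      calc X.card ≤ D.card := Finset.card_le_card hX
        _ = ∑ r, (fib L D r).card := (h69_sum_fib D).symm
        _ ≤ ∑ _r : ZMod L, 2 * d := Finset.sum_le_sum fun r _ => hup r
        _ = 2 * d * L := by
          rw [Finset.sum_const, Finset.card_univ, ZMod.card, smul_eq_mul, mul_comm]
    calc X.card * d ≤ 2 * d * L * d := Nat.mul_le_mul_right _ hXc
      _ = 2 * L * d ^ 2 := by ring
      _ ≤ 2 * L * (4 * E) := Nat.mul_le_mul_left _ key
      _ = 8 * L * E := by ring

end Pool.Agent.Helper72.WD
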