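import Pool.Agent.Helper46.WC.Graph1
import Pool.Agent.Helper72.WD.Iso

/-!
# Project WD, module S1: one seed (copy of `seed`, with `8 L b ≤ d M`)
-/

set_option autoImplicit false

namespace Pool.Agent.Helper72.WD

open Finset Pool.Agent.Helper72.WC

variable {n : ℕ}

theorem seed2 {b L d M : ℕ} [NeZero L] (hb : 0 < b) (hM0 : 0 < M) {f : Fin n → Fin n}
    (hff : ∀ v, f (f v) = f v) {D : Finset (Fin n)} (hD : D.Nonempty)
    (hDf : ∀ v ∈ D, cl f (f v) ⊆ D) (hlo : ∀ r, d ≤ (fib L D r).card)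
    (hup : ∀ r, (fib L D r).card ≤ 2 * d) (hM : ∀ v ∈ D, M ≤ (cl f (f v)).card)
    (hnum : 8 * L * b ≤ d * M) {U C : Finset (Sym2 (Fin n))}
    (hconn : ∀ v ∈ D, Conn C (cl f (f v)))
    (hU : ∀ x ∈ D, ∀ y ∈ D, x ≠ y → relA L x y → s(x, y) ∈ U) :
    Force b (fun U' C' => C ⊆ C' ∧ C' ⊆ C ∪ U ∧ U' ⊆ U ∧
      (∀ e ∈ U, e ∉ U' → ∃ x ∈ D, ∃ y ∈ D, relA L x y ∧ e = s(x, y)) ∧
      ∃ X ⊆ D, (∀ v ∈ X, cl f (f v) ⊆ X) ∧ Conn C' X ∧ 2 * (D \ X).card < d) U C := by
  classical
  let J : ℕ → Finset (Sym2 (Fin n)) → Finset (Sym2 (Fin n)) → Prop := fun i U' C' =>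
    C ⊆ C' ∧ C' ⊆ C ∪ U ∧ U' ⊆ U ∧
      (∀ e ∈ U, e ∉ U' → ∃ x ∈ D, ∃ y ∈ D, relA L x y ∧ e = s(x, y)) ∧
      ∃ X ⊆ D, (∀ v ∈ X, cl f (f v) ⊆ X) ∧ Conn C' X ∧
        (2 * (D \ X).card < d ∨ (M * (i + 1) ≤ X.card ∧ (U \ U').card ≤ b * i))
  have hself : ∀ v, v ∈ cl f (f v) := fun v => by simp [cl]
  have h0 : J 0 U C := by
    obtain ⟨v0, hv0⟩ := hD
    refine ⟨Subset.rfl, subset_union_left, Subset.rfl, fun e he he' => absurd he he',
      cl f (f v0), hDf v0 hv0, ?_, hconn v0 hv0, Or.inr ⟨?_, ?_⟩⟩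
    · intro v hv
      have : f v = f v0 := by simpa [cl] using hv
      rw [this]
    · have := hM v0 hv0
      omega
    · simp
  have hstep : ∀ i < n, ∀ U' C', J i U' C' → Force b (J (i + 1)) U' C' := by
    rintro i - U' C' ⟨h1, h2, h3, h4, X, hXD, hXf, hXc, h5⟩
    rcases h5 with h5 | ⟨h5, h6⟩
    · exact Force.here ⟨h1, h2, h3, h4, X, hXD, hXf, hXc, Or.inl h5⟩
    by_cases h7 : 2 * (D \ X).card < d
    · exact Force.here ⟨h1, h2, h3, h4, X, hXD, hXf, hXc, Or.inl h7⟩
    rw [not_lt] at h7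
    let P : Finset (Fin n × Fin n) := (X ×ˢ (D \ X)).filter fun p => relA L p.1 p.2
    let F0 : Finset (Sym2 (Fin n)) := P.image fun p => s(p.1, p.2)
    have hP : ∀ x y, (x, y) ∈ P ↔ x ∈ X ∧ (y ∈ D ∧ y ∉ X) ∧ relA L x y := by
      intro x y
      simp only [P, mem_filter, mem_product, mem_sdiff]
      tauto
    have hF0 : F0.card = P.card := by
      apply card_image_of_injOn
      rintro ⟨x, y⟩ hp ⟨x', y'⟩ hp' h
      rw [mem_coe, hP] at hp hp'
      simp only [Sym2.eq_iff] at h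
      rcases h with ⟨rfl, rfl⟩ | ⟨rfl, rfl⟩
      · rfl
      · exact absurd hp.1 hp'.2.1.2
    have hF0U : F0 ⊆ U := by
      intro e he
      obtain ⟨⟨x, y⟩, hp, rfl⟩ := mem_image.1 he
      rw [hP] at hp
      refine hU x (hXD hp.1) y hp.2.1.1 ?_ hp.2.2
      rintro rfl
      exact hp.2.1.2 hp.1
    have hiso := iso2 (L := L) hXD hlo hup h7
    have hF0b : b * (i + 1) ≤ F0.card := by
      rw [hF0]
      have e1 : 8 * L * (b * (i + 1)) ≤ 8 * L * P.card := by
        calc 8 * L * (b * (i + 1)) = (8 * L * b) * (i + 1) := by ring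
          _ ≤ d * M * (i + 1) := Nat.mul_le_mul_right _ hnum
          _ = (M * (i + 1)) * d := by ring
          _ ≤ X.card * d := Nat.mul_le_mul_right _ h5
          _ ≤ _ := hiso
      refine Nat.le_of_mul_le_mul_left e1 ?_
      have : 0 < L := Nat.pos_of_ne_zero (NeZero.ne L)
      positivity
    have hF : b ≤ (F0 ∩ U').card := by
      have e1 : F0.card ≤ (F0 ∩ U').card + (U \ U').card := by
        rw [← card_inter_add_card_sdiff F0 U']
        apply Nat.add_le_add_left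
        exact card_le_card (sdiff_subset_sdiff hF0U Subset.rfl)
      have e2 : b * (i + 1) = b * i + b := by ring
      omega
    refine (force_pick (F := F0 ∩ U') inter_subset_right hF).mono ?_
    rintro U'' C'' ⟨B, hB, hBb, e, he, rfl, rfl⟩
    have heF : e ∈ F0 := (mem_inter.1 (hB he)).1
    have heU' : e ∈ U' := (mem_inter.1 (hB he)).2
    obtain ⟨⟨x, y⟩, hp, hxy⟩ := mem_image.1 heF
    rw [hP] at hp
    obtain ⟨hx, ⟨hyD, hyX⟩, hr⟩ := hp
    have hdis : Disjoint X (cl f (f y)) := by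
      rw [disjoint_left]
      intro u hu hu'
      have e1 : f u = f y := by simpa [cl] using hu'
      apply hyX
      apply hXf u hu
      rw [e1]
      exact hself y
    refine ⟨h1.trans (subset_insert _ _), ?_, sdiff_subset.trans h3, ?_,
      X ∪ cl f (f y), union_subset hXD (hDf y hyD), ?_, ?_, Or.inr ⟨?_, ?_⟩⟩
    · apply insert_subset _ h2
      exact mem_union_right _ (hF0U heF)
    · intro e' he' hne
      by_cases hB' : e' ∈ B
      · have h8 : e' ∈ F0 := (mem_inter.1 (hB hB')).1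
        obtain ⟨⟨x', y'⟩, hp', rfl⟩ := mem_image.1 h8
        rw [hP] at hp'
        exact ⟨x', hXD hp'.1, y', hp'.2.1.1, hp'.2.2, rfl⟩
      · apply h4 e' he'
        intro h9
        exact hne (mem_sdiff.2 ⟨h9, hB'⟩)
    · intro v hv
      rcases mem_union.1 hv with hv | hv
      · exact (hXf v hv).trans subset_union_left
      · have : f v = f y := by simpa [cl] using hv
        rw [this]
        exact subset_union_right
    · refine Conn.union (Conn.mono hXc (subset_insert _ _))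
        (Conn.mono (hconn y hyD) (h1.trans (subset_insert _ _))) hx (hself y) ?_
      rw [hxy]
      exact mem_insert_self _ _
    · rw [card_union_of_disjoint hdis]
      have := hM y hyD
      have e2 : M * (i + 1 + 1) = M * (i + 1) + M := by ring
      omega
    · have e1 : U \ (U' \ B) ⊆ (U \ U') ∪ B := by
        intro z hz
        rw [mem_sdiff, mem_sdiff] at hz
        rw [mem_union, mem_sdiff]
        by_cases hzB : z ∈ B
        · exact Or.inr hzB
        · left
          exact ⟨hz.1, fun h => hz.2 ⟨h, hzB⟩⟩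
      have e2 := (card_le_card e1).trans (card_union_le _ _)
      have e3 : b * (i + 1) = b * i + b := by ring
      omega
  refine (Force.loop J n hstep h0).mono ?_
  rintro U' C' ⟨h1, h2, h3, h4, X, hXD, hXf, hXc, h5⟩
  refine ⟨h1, h2, h3, h4, X, hXD, hXf, hXc, ?_⟩
  rcases h5 with h5 | ⟨h5, -⟩
  · exact h5
  · exfalso
    have e1 : X.card ≤ n := by
      have := card_le_univ X
      simpa using this
    have e2 : n + 1 ≤ M * (n + 1) := Nat.le_mul_of_pos_left _ hM0
    omega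

end Pool.Agent.Helper72.WD
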