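import Pool.Agent.Helper46.WC.Graph1
import Pool.Agent.Helper72.WD.Seed

set_option autoImplicit false

namespace Pool.Agent.Helper72.WD

open Finset Pool.Agent.Helper72.WC

variable {n : ℕ}

theorem seeds2 {b L d M k : ℕ} [NeZero L] (hb : 0 < b) (hM0 : 0 < M) (hd : 0 < d)
    {f : Fin n → Fin n} (hff : ∀ v, f (f v) = f v) {g : Fin n → Fin k} (hg : ∀ v, g (f v) = g v)
    (hlo : ∀ j r, d ≤ (fib L (univ.filter fun v => g v = j) r).card)
    (hup : ∀ j r, (fib L (univ.filter fun v => g v = j) r).card ≤ 2 * d)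
    (hM : ∀ v, M ≤ (cl f (f v)).card) (hnum : 8 * L * b ≤ d * M)
    {U C : Finset (Sym2 (Fin n))} (hconn : ∀ v, Conn C (cl f (f v)))
    (hU : ∀ x y, x ≠ y → relA L x y → s(x, y) ∈ U) :
    Force b (fun U' C' => C ⊆ C' ∧ C' ⊆ C ∪ U ∧ U' ⊆ U ∧
      (∀ e ∈ U, e ∉ U' → ∃ x y, relA L x y ∧ e = s(x, y)) ∧
      ∃ X : Fin k → Finset (Fin n), ∀ j, (∀ v ∈ X j, g v = j) ∧
        (∀ v ∈ X j, cl f (f v) ⊆ X j) ∧ Conn C' (X j) ∧
        ∀ r, d ≤ 2 * (fib L (X j) r).card) U C := by
  classical
  have main : Force b (fun U' C' => C ⊆ C' ∧ C' ⊆ C ∪ U ∧ U' ⊆ U ∧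
      (∀ e ∈ U, e ∉ U' → ∃ x y, relA L x y ∧ e = s(x, y) ∧ g x = g y ∧ (g x).val < k) ∧
      ∃ X : Fin k → Finset (Fin n), ∀ j : Fin k, j.val < k → (∀ v ∈ X j, g v = j) ∧
        (∀ v ∈ X j, cl f (f v) ⊆ X j) ∧ Conn C' (X j) ∧
        ∀ r, d ≤ 2 * (fib L (X j) r).card) U C := by
    refine Force.loop (J := fun i U' C' => C ⊆ C' ∧ C' ⊆ C ∪ U ∧ U' ⊆ U ∧
      (∀ e ∈ U, e ∉ U' → ∃ x y, relA L x y ∧ e = s(x, y) ∧ g x = g y ∧ (g x).val < i) ∧
      ∃ X : Fin k → Finset (Fin n), ∀ j : Fin k, j.val < i → (∀ v ∈ X j, g v = j) ∧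
        (∀ v ∈ X j, cl f (f v) ⊆ X j) ∧ Conn C' (X j) ∧
        ∀ r, d ≤ 2 * (fib L (X j) r).card) k ?_ ?_
    · intro i hi U1 C1 hJ
      obtain ⟨hC1, hC2, hU1, hused, X, hX⟩ := hJ
      set j0 : Fin k := ⟨i, hi⟩ with hj0
      set D : Finset (Fin n) := univ.filter fun v => g v = j0 with hD
      have hDm : ∀ v, v ∈ D ↔ g v = j0 := by
        intro v
        simp [hD]
      have hDne : D.Nonempty := by
        have h1 : 0 < (fib L D 0).card := lt_of_lt_of_le hd (hlo j0 0)
        obtain ⟨v, hv⟩ := Finset.card_pos.1 h1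
        exact ⟨v, (Finset.mem_filter.1 hv).1⟩
      have hDf : ∀ v ∈ D, cl f (f v) ⊆ D := by
        intro v hv u hu
        have h1 : f u = f v := by
          simpa [cl] using hu
        rw [hDm] at hv ⊢
        rw [← hg u, h1, hg v, hv]
      refine (seed2 (D := D) hb hM0 hff hDne hDf (hlo j0) (hup j0) (fun v _ => hM v) hnum
        (fun v _ => (hconn v).mono hC1) ?_).mono ?_
      · intro x hx y hy hxy hrel
        by_contra hne
        obtain ⟨x', y', _, he, hgg, hlt⟩ := hused _ (hU x y hxy hrel) hne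
        rw [hDm] at hx hy
        rw [Sym2.eq_iff] at he
        rcases he with ⟨h1, h2⟩ | ⟨h1, h2⟩
        · rw [← h1, hx] at hlt
          simp [hj0] at hlt
        · rw [← h2, hy] at hlt
          simp [hj0] at hlt
      · rintro U2 C2 ⟨hC3, hC4, hU2, hused2, X0, hX0D, hX0f, hX0c, hX0s⟩
        refine ⟨hC1.trans hC3, ?_, hU2.trans hU1, ?_, Function.update X j0 X0, ?_⟩
        · intro e he
          rcases Finset.mem_union.1 (hC4 he) with h1 | h1
          · exact hC2 h1
          · exact Finset.mem_union_right _ (hU1 h1)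
        · intro e he hne
          by_cases h1 : e ∈ U1
          · obtain ⟨x, hx, y, hy, hrel, hexy⟩ := hused2 e h1 hne
            rw [hDm] at hx hy
            refine ⟨x, y, hrel, hexy, by rw [hx, hy], ?_⟩
            rw [hx]
            simp [hj0]
          · obtain ⟨x, y, hrel, hexy, hgg, hlt⟩ := hused e he h1
            exact ⟨x, y, hrel, hexy, hgg, by omega⟩
        · intro j hj
          by_cases hjj : j = j0
          · subst hjj
            rw [Function.update_self]
            refine ⟨fun v hv => (hDm v).1 (hX0D hv), hX0f, hX0c, fun r => ?_⟩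
            have h1 := hlo j0 r
            have h2 : (fib L D r).card ≤ (fib L X0 r).card + (D \ X0).card := by
              rw [← Finset.card_union_of_disjoint (s := fib L X0 r) (t := D \ X0)]
              · apply Finset.card_le_card
                intro v hv
                have hv' := Finset.mem_filter.1 hv
                by_cases hvX : v ∈ X0
                · exact Finset.mem_union_left _ (Finset.mem_filter.2 ⟨hvX, hv'.2⟩)
                · exact Finset.mem_union_right _ (Finset.mem_sdiff.2 ⟨hv'.1, hvX⟩)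
              · rw [Finset.disjoint_left]
                intro v hv hv2
                exact (Finset.mem_sdiff.1 hv2).2 (Finset.mem_filter.1 hv).1
            change d ≤ (fib L D r).card at h1
            omega
          · rw [Function.update_of_ne hjj]
            have hlt : j.val < i := by
              have h1 : j.val ≠ i := fun h => hjj (Fin.ext h)
              omega
            obtain ⟨h1, h2, h3, h4⟩ := hX j hlt
            exact ⟨h1, h2, h3.mono hC3, h4⟩
    · refine ⟨subset_rfl, Finset.subset_union_left, subset_rfl, fun e he hne => absurd he hne,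
        fun _ => ∅, fun j hj => absurd hj (by omega)⟩
  refine main.mono ?_
  rintro U' C' ⟨h1, h2, h3, h4, X, hX⟩
  refine ⟨h1, h2, h3, ?_, X, fun j => hX j j.isLt⟩
  intro e he hne
  obtain ⟨x, y, hrel, hexy, _, _⟩ := h4 e he hne
  exact ⟨x, y, hrel, hexy⟩

end Pool.Agent.Helper72.WD
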