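import Pool.Agent.Helper72.WC.Defs
import Pool.Agent.Helper92.WC.Graph2
import Pool.Agent.Helper45.WC.Inner

/-!
# Project WD, module M1: the rounds at one centre, with a general potential

PROOF: copy `h45_inner_aux` / `inner` of `Pool/Agent/Helper45/WC/Inner.lean` (private lemmas have to be
copied) and add to the induction hypothesis the invariant (with `c` the current minimum, `c ≤ t`)
`∀ D h G, Monotone D → Monotone h → (∀ c s, c ≤ s → s ≤ t → b * D c - h c ≤ G s) →
  Σ_A D (s0 y) - Σ_X h (s0 x) ≤ b * D t - b * D c + (1/b) * Σ_A G (s0 y)`.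
Step with the chunk `B` (all `s0 y ≤ c` on `B`, minimum `c' = s0 y0`, pick `x`): `Σ_B D (s0 y) ≤ b D c`,
`h (s0 x) ≥ h c'`, and `b D c' - h c' ≤ G (s0 y)` for all `y ∈ B`, so
`b D c' - h c' ≤ (1/b) Σ_B G (s0 y)`.  At the end `D c ≥ 0` is used.
-/

set_option autoImplicit false

namespace Pool.Agent.Helper72.WD

open Finset Pool.Agent.Helper72.WC

variable {n : ℕ}

/-- The `b` largest elements. -/
private theorem wd_inner_top {V : Type*} [DecidableEq V] (s : V → ℤ) (S : Finset V) :
    ∀ b : ℕ, b ≤ S.card → ∃ B ⊆ S, B.card = b ∧ ∀ y ∈ S \ B, ∀ z ∈ B, s y ≤ s z := by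
  intro b
  induction b with
  | zero => exact fun _ => ⟨∅, empty_subset _, rfl, fun y _ z hz => absurd hz (notMem_empty z)⟩
  | succ b ih =>
    intro hb
    obtain ⟨B, hBS, hBb, hB⟩ := ih (by omega)
    have hne : (S \ B).Nonempty := by
      rw [← card_pos, card_sdiff_of_subset hBS]
      omega
    obtain ⟨y0, hy0, hmax⟩ := exists_max_image (S \ B) s hne
    have hy0' := mem_sdiff.1 hy0
    refine ⟨insert y0 B, insert_subset hy0'.1 hBS, ?_, ?_⟩
    · rw [card_insert_of_notMem hy0'.2, hBb]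
    · intro y hy z hz
      have hy' : y ∈ S \ B := by
        rw [mem_sdiff] at hy ⊢
        exact ⟨hy.1, fun h => hy.2 (mem_insert_of_mem h)⟩
      rcases mem_insert.1 hz with rfl | hz
      · exact hmax y hy'
      · exact hB y hy' z hz

private theorem wd_inner_star_inj (v : Fin n) : Function.Injective fun y : Fin n => s(v, y) := by
  intro y y' h
  exact Sym2.congr_right.1 h

/-- the invariant of the potential -/
private def wd_inner_inv (b : ℕ) (s0 : Fin n → ℤ) (t : ℤ) (A X : Finset (Fin n)) (c : ℤ) : Prop :=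
  ∀ D h G : ℤ → ℝ, Monotone D → Monotone h → (∀ c s, c ≤ s → s ≤ t → b * D c - h c ≤ G s) →
    ∑ y ∈ A, D (s0 y) - ∑ x ∈ X, h (s0 x) ≤ b * D t - b * D c + (∑ y ∈ A, G (s0 y)) / b

private theorem wd_inner_end {b : ℕ} {s0 : Fin n → ℤ} {t c : ℤ} {A X : Finset (Fin n)}
    (hinv : wd_inner_inv b s0 t A X c) :
    ∀ D h G : ℤ → ℝ, Monotone D → Monotone h → (∀ c, 0 ≤ D c) →
      (∀ c s, c ≤ s → s ≤ t → b * D c - h c ≤ G s) →
      ∑ y ∈ A, D (s0 y) - ∑ x ∈ X, h (s0 x) ≤ b * D t + (∑ y ∈ A, G (s0 y)) / b := by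
  intro D h G hD hh hD0 hG
  have h1 := hinv D h G hD hh hG
  have h2 : 0 ≤ (b : ℝ) * D c := mul_nonneg (Nat.cast_nonneg b) (hD0 c)
  linarith

private theorem wd_inner_step {b : ℕ} {s0 : Fin n → ℤ} {t c : ℤ} {A X B : Finset (Fin n)}
    {x y0 : Fin n} (hb : 0 < b) (hBb : B.card = b) (hdisj : Disjoint A B) (hxX : x ∉ X)
    (hx : x ∈ B) (hct : c ≤ t) (hBc : ∀ y ∈ B, s0 y ≤ c) (hmin : ∀ y ∈ B, s0 y0 ≤ s0 y)
    (hinv : wd_inner_inv b s0 t A X c) :
    wd_inner_inv b s0 t (A ∪ B) (insert x X) (s0 y0) := by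
  intro D h G hD hh hG
  have h1 := hinv D h G hD hh hG
  have hb' : (0 : ℝ) < (b : ℝ) := by exact_mod_cast hb
  rw [sum_union hdisj, sum_union hdisj, sum_insert hxX]
  have h2 : ∑ y ∈ B, D (s0 y) ≤ b * D c := by
    have h3 : ∑ y ∈ B, D (s0 y) ≤ ∑ y ∈ B, D c := sum_le_sum fun y hy => hD (hBc y hy)
    rwa [sum_const, hBb, nsmul_eq_mul] at h3
  have h4 : h (s0 y0) ≤ h (s0 x) := hh (hmin x hx)
  have h5 : (b : ℝ) * (b * D (s0 y0) - h (s0 y0)) ≤ ∑ y ∈ B, G (s0 y) := by
    have h6 : ∑ y ∈ B, (b * D (s0 y0) - h (s0 y0)) ≤ ∑ y ∈ B, G (s0 y) :=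
      sum_le_sum fun y hy => hG _ _ (hmin y hy) ((hBc y hy).trans hct)
    rwa [sum_const, hBb, nsmul_eq_mul] at h6
  have h7 : (b : ℝ) * D (s0 y0) - h (s0 y0) ≤ (∑ y ∈ B, G (s0 y)) / b := by
    rw [le_div_iff₀ hb', mul_comm]
    exact h5
  rw [add_div]
  linarith

private theorem wd_inner_aux {b l β : ℕ} {v : Fin n} {W : Finset (Fin n)} {s0 : Fin n → ℤ}
    {t m : ℤ} {U C : Finset (Sym2 (Fin n))} (hb : 0 < b) (hC : C ⊆ board n) (hvW : v ∉ W)
    (hU : ∀ y ∈ W, s(v, y) ∈ U) (hm : ∀ y ∈ W, -m ≤ s0 y)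
    (hβ : ∀ X ⊆ W, X.card * b ≤ W.card →
      (ball (C ∪ X.image fun y => s(v, y)) l v).card ≤ β) :
    ∀ (N : ℕ) (A X : Finset (Fin n)) (c : ℤ), (W \ A).card ≤ N → X ⊆ A → A ⊆ W →
      A.card = X.card * b → Sp l (C ∪ X.image fun y => s(v, y)) → -m ≤ c →
      ∑ y ∈ A, s0 y - b * ∑ y ∈ X, s0 y ≤ b * (t - c) →
      (∀ y ∈ W \ A, y ∉ ball (C ∪ X.image fun y => s(v, y)) l v → s0 y ≤ c) →
      c ≤ t → wd_inner_inv b s0 t A X c →
      Force b (fun U' C' => ∃ A X : Finset (Fin n), X ⊆ A ∧ A ⊆ W ∧ A.card = X.card * b ∧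
        U' = U \ A.image (fun y => s(v, y)) ∧ C' = C ∪ X.image (fun y => s(v, y)) ∧ Sp l C' ∧
        W.card < A.card + b + β ∧ ∑ y ∈ A, s0 y - b * ∑ y ∈ X, s0 y ≤ b * (t + m) ∧
        ∀ D h G : ℤ → ℝ, Monotone D → Monotone h → (∀ c, 0 ≤ D c) →
          (∀ c s, c ≤ s → s ≤ t → b * D c - h c ≤ G s) →
          ∑ y ∈ A, D (s0 y) - ∑ x ∈ X, h (s0 x) ≤ b * D t + (∑ y ∈ A, G (s0 y)) / b)
        (U \ A.image fun y => s(v, y)) (C ∪ X.image fun y => s(v, y)) := by
  intro N
  induction N with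
  | zero =>
    intro A X c hN hXA hAW hcard hsp hc hsum hball hct hinv
    refine Force.here ⟨A, X, hXA, hAW, hcard, rfl, rfl, hsp, ?_, hsum.trans ?_,
      wd_inner_end hinv⟩
    · have h1 := card_sdiff_add_card_eq_card hAW
      omega
    · exact mul_le_mul_of_nonneg_left (by linarith) (by positivity)
  | succ N ih =>
    intro A X c hN hXA hAW hcard hsp hc hsum hball hct hinv
    set C1 := C ∪ X.image fun y => s(v, y) with hC1
    set Av := (W \ A).filter fun y => y ∉ ball C1 l v with hAv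
    have hXW : X ⊆ W := hXA.trans hAW
    by_cases hlt : Av.card < b
    · refine Force.here ⟨A, X, hXA, hAW, hcard, rfl, rfl, hsp, ?_, hsum.trans ?_,
        wd_inner_end hinv⟩
      · have h1 := card_sdiff_add_card_eq_card hAW
        have h2 : (W \ A).card ≤ Av.card + (ball C1 l v).card := by
          refine (card_le_card ?_).trans (card_union_le _ _)
          intro y hy
          by_cases hyb : y ∈ ball C1 l v
          · exact mem_union_right _ hyb
          · exact mem_union_left _ (mem_filter.2 ⟨hy, hyb⟩)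
        have h3 : (ball C1 l v).card ≤ β := by
          refine hβ X hXW ?_
          rw [← hcard]
          exact card_le_card hAW
        omega
      · exact mul_le_mul_of_nonneg_left (by linarith) (by positivity)
    · obtain ⟨B, hBAv, hBb, hB⟩ := wd_inner_top s0 Av b (not_lt.1 hlt)
      have hBW : B ⊆ W \ A := hBAv.trans (filter_subset _ _)
      have hBball : ∀ y ∈ B, y ∉ ball C1 l v := fun y hy => (mem_filter.1 (hBAv hy)).2
      have hBne : B.Nonempty := by
        rw [← card_pos, hBb]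
        exact hb
      obtain ⟨y0, hy0, hmin⟩ := exists_min_image B s0 hBne
      have hdisj : Disjoint A B := by
        rw [disjoint_left]
        intro y hyA hyB
        exact (mem_sdiff.1 (hBW hyB)).2 hyA
      refine Force.play (B.image fun y => s(v, y)) ?_ ?_ ?_
      · intro e he
        obtain ⟨y, hy, rfl⟩ := mem_image.1 he
        have hy' := mem_sdiff.1 (hBW hy)
        refine mem_sdiff.2 ⟨hU y hy'.1, fun h => ?_⟩
        obtain ⟨y', hy'A, hyy⟩ := mem_image.1 h
        rw [wd_inner_star_inj v hyy] at hy'A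
        exact hy'.2 hy'A
      · rw [card_image_of_injective _ (wd_inner_star_inj v), hBb]
      · intro e he
        obtain ⟨x, hx, rfl⟩ := mem_image.1 he
        have hx' := mem_sdiff.1 (hBW hx)
        have hxX : x ∉ X := fun h => hx'.2 (hXA h)
        have e1 : (U \ A.image fun y => s(v, y)) \ (B.image fun y => s(v, y)) =
            U \ (A ∪ B).image fun y => s(v, y) := by
          rw [image_union]
          ext e
          simp only [mem_sdiff, mem_union]
          tauto
        have e2 : insert s(v, x) C1 = C ∪ (insert x X).image fun y => s(v, y) := by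
          rw [image_insert, hC1]
          ext e
          simp only [mem_insert, mem_union]
          tauto
        have hsub : C1 ⊆ C ∪ (insert x X).image fun y => s(v, y) := by
          rw [← e2]
          exact subset_insert _ _
        rw [e1, e2]
        have hC1b : C1 ⊆ board n := by
          refine union_subset hC ?_
          intro e he
          obtain ⟨y, hy, rfl⟩ := mem_image.1 he
          refine mem_filter.2 ⟨mem_univ _, ?_⟩
          rw [Sym2.mk_isDiag_iff]
          rintro rfl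
          exact hvW (hXW hy)
        have hBc : ∀ y ∈ B, s0 y ≤ c := fun y hy => hball y (hBW hy) (hBball y hy)
        refine ih (A ∪ B) (insert x X) (s0 y0) ?_ ?_ ?_ ?_ ?_ ?_ ?_ ?_
          ((hBc y0 hy0).trans hct) (wd_inner_step hb hBb hdisj hxX hx hct hBc hmin hinv)
        · have h1 : W \ (A ∪ B) ⊂ W \ A := by
            refine ⟨sdiff_subset_sdiff subset_rfl subset_union_left, fun h => ?_⟩
            exact (mem_sdiff.1 (h (hBW hx))).2 (mem_union_right _ hx)
          have := card_lt_card h1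
          omega
        · exact insert_subset (mem_union_right _ hx) (hXA.trans subset_union_left)
        · exact union_subset hAW (hBW.trans sdiff_subset)
        · rw [card_union_of_disjoint hdisj, card_insert_of_notMem hxX, hcard, hBb]
          ring
        · rw [← e2]
          exact sp_insert hC1b hsp (hBball x hx)
        · exact hm y0 (mem_sdiff.1 (hBW hy0)).1
        · rw [sum_union hdisj, sum_insert hxX]
          have h1 : ∑ y ∈ B, s0 y ≤ b * c := by
            have : ∑ y ∈ B, s0 y ≤ ∑ y ∈ B, c :=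
              sum_le_sum fun y hy => hball y (hBW hy) (hBball y hy)
            rwa [sum_const, hBb, nsmul_eq_mul] at this
          have h2 : (b : ℤ) * s0 y0 ≤ b * s0 x :=
            mul_le_mul_of_nonneg_left (hmin x hx) (by positivity)
          have h3 : (b : ℤ) * (s0 x + ∑ y ∈ X, s0 y) = b * s0 x + b * ∑ y ∈ X, s0 y := by ring
          have h4 : (b : ℤ) * (t - c) = b * t - b * c := by ring
          have h5 : (b : ℤ) * (t - s0 y0) = b * t - b * s0 y0 := by ring
          rw [h3, h5]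
          rw [h4] at hsum
          linarith
        · intro y hy hyb
          have hy' := mem_sdiff.1 hy
          have h1 : y ∈ Av := by
            refine mem_filter.2 ⟨mem_sdiff.2 ⟨hy'.1, fun h => hy'.2 (mem_union_left _ h)⟩,
              fun h => hyb (h45_ball_mono hsub l v h)⟩
          exact hB y (mem_sdiff.2 ⟨h1, fun h => hy'.2 (mem_union_right _ h)⟩) y0 hy0

theorem inner2 {b l β : ℕ} {v : Fin n} {W : Finset (Fin n)} {s0 : Fin n → ℤ} {t m : ℤ}
    {U C : Finset (Sym2 (Fin n))} (hb : 0 < b) (hC : C ⊆ board n) (hsp : Sp l C) (hvW : v ∉ W)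
    (hU : ∀ y ∈ W, s(v, y) ∈ U) (hs : ∀ y ∈ W, s0 y ≤ t)
    (hm : ∀ y ∈ W, -m ≤ s0 y) (htm : 0 ≤ t + m)
    (hβ : ∀ X ⊆ W, X.card * b ≤ W.card →
      (ball (C ∪ X.image fun y => s(v, y)) l v).card ≤ β) :
    Force b (fun U' C' => ∃ A X : Finset (Fin n), X ⊆ A ∧ A ⊆ W ∧ A.card = X.card * b ∧
      U' = U \ A.image (fun y => s(v, y)) ∧ C' = C ∪ X.image (fun y => s(v, y)) ∧ Sp l C' ∧
      W.card < A.card + b + β ∧ ∑ y ∈ A, s0 y - b * ∑ y ∈ X, s0 y ≤ b * (t + m) ∧
      ∀ D h G : ℤ → ℝ, Monotone D → Monotone h → (∀ c, 0 ≤ D c) →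
        (∀ c s, c ≤ s → s ≤ t → b * D c - h c ≤ G s) →
        ∑ y ∈ A, D (s0 y) - ∑ x ∈ X, h (s0 x) ≤ b * D t + (∑ y ∈ A, G (s0 y)) / b) U C := by
  have h := wd_inner_aux (t := t) (β := β) (l := l) hb hC hvW hU hm hβ W.card ∅ ∅ t
    (by rw [sdiff_empty]) (empty_subset _) (empty_subset _) (by simp)
    (by simpa using hsp) (by linarith) (by simp)
    (fun y hy _ => hs y (mem_sdiff.1 hy).1) le_rfl (fun D h G _ _ _ => by simp)
  rw [image_empty, sdiff_empty, union_empty] at h
  exact h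

end Pool.Agent.Helper72.WD
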