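import Pool.Agent.Helper72.WD.Fun2

/-!
# Project WD, module M2: the barrier potential

PROOF.  Write `f = bf a b`, `D s = f (s+1) - f s`, `h s = f (s+1) - f (s+1-b)`, `s1 y` for the new value,
`T = s0 v`, `s̄ = a - (12 b + 2)`.  For `y ∈ X` (`⊆ W`) `f (s1 y) = f (s0 y) + D (s0 y) - h (s0 y)`, for
`y ∈ W \ X` `f (s1 y) = f (s0 y) + D (s0 y)`, else `f (s1 y) = f (s0 y)`; so (as `h71_sq_sum` in
`Pool/Agent/Helper71/WC/Pot.lean`)
`Σ_{R.erase v} f (s1 y) = Σ_R f (s0 y) - f T + Σ_W D (s0 y) - Σ_X h (s0 y)`,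
`Σ_W D ≤ Σ_A D + 2 b D T` (`D` monotone, at most `2 b` elements in `W \ A`), and by `hin` with
`G s = 7 b² / (2 a²) * f s * f T` (`bf_g`; `h` is monotone: `h s = Σ_{j<b} D (s - j)`)
`Σ_A D - Σ_X h ≤ b D T + 7 b / (2 a²) f T Σ_A f (s0 y)`, where `Σ_A f ≤ Σ_R f ≤ n` and
`14 b n ≤ a²`, so the last term is `≤ f T / 4`.  With `6 b D T ≤ f T` (`bf_D`) the sum is
`≤ Σ_R f (s0 y) - f T / 4`.  Dropping `N` only decreases it (`f > 0`).
`t' = T + 1` if `s̄ ≤ T` (then `f T ≥ f s̄ = a²/(12b+2)²`), `t' = s̄` if `T < s̄` (`s1 y ≤ T + 1`).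
-/

set_option autoImplicit false

namespace Pool.Agent.Helper72.WD

open Finset

/-- differences over `m` steps of a function with monotone differences are monotone -/
theorem wd_Pot_mono (f : ℤ → ℝ) (hD : Monotone fun s : ℤ => f (s + 1) - f s) (m : ℕ) :
    Monotone fun s : ℤ => f (s + 1) - f (s + 1 - (m : ℤ)) := by
  induction m with
  | zero =>
    intro s s' _
    simp
  | succ m ih =>
    intro s s' hs
    have h1 := ih hs
    have h2 := hD (show s - (m : ℤ) ≤ s' - (m : ℤ) by omega)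
    simp only at h1 h2 ⊢
    have e : ∀ u : ℤ, u + 1 - ((m + 1 : ℕ) : ℤ) = u - (m : ℤ) := fun u => by
      push_cast
      ring
    have e' : ∀ u : ℤ, u - (m : ℤ) + 1 = u + 1 - (m : ℤ) := fun u => by ring
    rw [e, e]
    rw [e', e'] at h2
    linarith

/-- the sum of the new values -/
theorem wd_Pot_sum {V : Type*} [DecidableEq V] {R' W X : Finset V} {s0 : V → ℤ} {b : ℕ}
    (f : ℤ → ℝ) (hW : W ⊆ R') (hX : X ⊆ W) :
    ∑ y ∈ R', f (s0 y + (if y ∈ W then 1 else 0) - (if y ∈ X then (b : ℤ) else 0)) =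
      ∑ y ∈ R', f (s0 y) + ∑ y ∈ W, (f (s0 y + 1) - f (s0 y)) -
        ∑ y ∈ X, (f (s0 y + 1) - f (s0 y + 1 - (b : ℤ))) := by
  have h1 : ∀ y ∈ R', f (s0 y + (if y ∈ W then 1 else 0) - (if y ∈ X then (b : ℤ) else 0)) =
      f (s0 y) + (if y ∈ W then (f (s0 y + 1) - f (s0 y)) else 0) -
        (if y ∈ X then (f (s0 y + 1) - f (s0 y + 1 - (b : ℤ))) else 0) := by
    intro y _
    by_cases hx : y ∈ X
    · rw [if_pos hx, if_pos (hX hx), if_pos hx, if_pos (hX hx)]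
      ring
    · by_cases hw : y ∈ W
      · rw [if_neg hx, if_pos hw, if_neg hx, if_pos hw]
        simp
      · rw [if_neg hx, if_neg hw, if_neg hx, if_neg hw]
        simp
  rw [Finset.sum_congr rfl h1, Finset.sum_sub_distrib, Finset.sum_add_distrib,
    Finset.sum_ite_mem, Finset.sum_ite_mem, Finset.inter_eq_right.2 hW,
    Finset.inter_eq_right.2 (hX.trans hW)]

theorem pot2 {V : Type*} [DecidableEq V] {R W A X N : Finset V} {v : V} {s0 : V → ℤ}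
    {n b a : ℕ} (hb : 1 ≤ b) (ha0 : 0 < a) (ha : 14 * b * n ≤ a ^ 2) (hv : v ∈ R)
    (hW : W ⊆ R.erase v) (hA : A ⊆ W) (hX : X ⊆ A) (hN : N ⊆ X)
    (hWA : W.card ≤ A.card + 2 * b) (hmax : ∀ y ∈ R, s0 y ≤ s0 v)
    (hin : ∀ D h G : ℤ → ℝ, Monotone D → Monotone h → (∀ c, 0 ≤ D c) →
      (∀ c s, c ≤ s → s ≤ s0 v → b * D c - h c ≤ G s) →
      ∑ y ∈ A, D (s0 y) - ∑ x ∈ X, h (s0 x) ≤ b * D (s0 v) + (∑ y ∈ A, G (s0 y)) / b)
    {t : ℤ} (hbar : (a : ℤ) - (12 * b + 2) ≤ t) (hvt : s0 v ≤ t)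
    (hpot : ∑ y ∈ R, bf a b (s0 y) +
      (a : ℝ) ^ 2 / (12 * b + 2) ^ 2 / 4 * ((t : ℝ) - ((a : ℝ) - (12 * b + 2))) ≤ n) :
    ∃ t' : ℤ, (a : ℤ) - (12 * b + 2) ≤ t' ∧
      (∀ y ∈ (R.erase v) \ N,
        s0 y + (if y ∈ W then 1 else 0) - (if y ∈ X then (b : ℤ) else 0) ≤ t') ∧
      ∑ y ∈ (R.erase v) \ N,
          bf a b (s0 y + (if y ∈ W then 1 else 0) - (if y ∈ X then (b : ℤ) else 0)) +
        (a : ℝ) ^ 2 / (12 * b + 2) ^ 2 / 4 * ((t' : ℝ) - ((a : ℝ) - (12 * b + 2))) ≤ n := by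
  have hb0 : 0 < b := hb
  have hbr : (0 : ℝ) < (b : ℝ) := by exact_mod_cast hb0
  have har : (0 : ℝ) < (a : ℝ) := by exact_mod_cast ha0
  have hXW : X ⊆ W := hX.trans hA
  have hNR : N ⊆ R.erase v := (hN.trans hXW).trans hW
  have hAR : A ⊆ R := (hA.trans hW).trans (Finset.erase_subset _ _)
  have hfp : ∀ s, 0 < bf a b s := fun s => bf_pos ha0 s
  set c : ℝ := (a : ℝ) ^ 2 / (12 * b + 2) ^ 2 / 4 with hc
  have hc0 : 0 < c := by positivity
  have hbar' : (a : ℝ) - (12 * b + 2) ≤ (t : ℝ) := by exact_mod_cast hbar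
  have hvt' : ((s0 v : ℤ) : ℝ) ≤ (t : ℝ) := by exact_mod_cast hvt
  have hDnn : ∀ u : ℤ, 0 ≤ bf a b (u + 1) - bf a b u := fun u => by
    have := bf_mono a b (show u ≤ u + 1 by omega)
    linarith
  -- the sum over `R` is at most `n`
  have hRn : ∑ y ∈ R, bf a b (s0 y) ≤ n := by
    have h1 : 0 ≤ c * ((t : ℝ) - ((a : ℝ) - (12 * b + 2))) :=
      mul_nonneg hc0.le (by linarith)
    linarith
  have hAn : ∑ y ∈ A, bf a b (s0 y) ≤ n :=
    (Finset.sum_le_sum_of_subset_of_nonneg hAR fun y _ _ => (hfp _).le).trans hRn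
  -- the inner inequality
  have hin1 := hin (fun s => bf a b (s + 1) - bf a b s)
    (fun s => bf a b (s + 1) - bf a b (s + 1 - (b : ℤ)))
    (fun s => 7 * (b : ℝ) ^ 2 / (2 * (a : ℝ) ^ 2) * bf a b s * bf a b (s0 v))
    (bf_D_mono a b) (wd_Pot_mono _ (bf_D_mono a b) b) hDnn
    (fun u s hus hsv => bf_g ha0 hb0 hus hsv)
  have hG : (∑ y ∈ A, 7 * (b : ℝ) ^ 2 / (2 * (a : ℝ) ^ 2) * bf a b (s0 y) * bf a b (s0 v)) / b ≤
      bf a b (s0 v) / 4 := by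
    have e1 : ∑ y ∈ A, 7 * (b : ℝ) ^ 2 / (2 * (a : ℝ) ^ 2) * bf a b (s0 y) * bf a b (s0 v) =
        7 * (b : ℝ) ^ 2 / (2 * (a : ℝ) ^ 2) * bf a b (s0 v) * ∑ y ∈ A, bf a b (s0 y) := by
      rw [Finset.mul_sum]
      refine Finset.sum_congr rfl fun y _ => ?_
      ring
    rw [e1]
    have e2 : 7 * (b : ℝ) ^ 2 / (2 * (a : ℝ) ^ 2) * bf a b (s0 v) * (∑ y ∈ A, bf a b (s0 y)) / b =
        bf a b (s0 v) * ((7 * b * ∑ y ∈ A, bf a b (s0 y)) / (2 * (a : ℝ) ^ 2)) := by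
      field_simp
    rw [e2]
    have h1 : (7 * b * ∑ y ∈ A, bf a b (s0 y)) / (2 * (a : ℝ) ^ 2) ≤ 1 / 4 := by
      rw [div_le_iff₀ (by positivity)]
      have h2 : (14 : ℝ) * b * n ≤ (a : ℝ) ^ 2 := by exact_mod_cast ha
      have h3 : (7 : ℝ) * b * ∑ y ∈ A, bf a b (s0 y) ≤ 7 * b * n :=
        mul_le_mul_of_nonneg_left hAn (by positivity)
      linarith
    calc bf a b (s0 v) * ((7 * b * ∑ y ∈ A, bf a b (s0 y)) / (2 * (a : ℝ) ^ 2))
        ≤ bf a b (s0 v) * (1 / 4) := mul_le_mul_of_nonneg_left h1 (hfp _).le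
      _ = bf a b (s0 v) / 4 := by ring
  -- the sum over `W`
  have hWD : ∑ y ∈ W, (bf a b (s0 y + 1) - bf a b (s0 y)) ≤
      ∑ y ∈ A, (bf a b (s0 y + 1) - bf a b (s0 y)) +
        2 * b * (bf a b (s0 v + 1) - bf a b (s0 v)) := by
    rw [← Finset.sum_sdiff hA, add_comm]
    have h1 : ∑ y ∈ W \ A, (bf a b (s0 y + 1) - bf a b (s0 y)) ≤
        ∑ _y ∈ W \ A, (bf a b (s0 v + 1) - bf a b (s0 v)) := by
      refine Finset.sum_le_sum fun y hy => ?_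
      have h2 : y ∈ R := Finset.mem_of_mem_erase (hW (Finset.mem_sdiff.1 hy).1)
      exact bf_D_mono a b (hmax y h2)
    rw [Finset.sum_const, nsmul_eq_mul] at h1
    have h3 : (W \ A).card ≤ 2 * b := by
      have := Finset.card_sdiff_add_card_eq_card hA
      omega
    have h4 : ((W \ A).card : ℝ) * (bf a b (s0 v + 1) - bf a b (s0 v)) ≤
        2 * b * (bf a b (s0 v + 1) - bf a b (s0 v)) := by
      refine mul_le_mul_of_nonneg_right ?_ (hDnn _)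
      exact_mod_cast h3
    linarith
  have h6 := bf_D (a := a) hb0 (s0 v)
  have hsum := wd_Pot_sum (s0 := s0) (b := b) (bf a b) hW hXW
  have e3 : ∑ y ∈ R, bf a b (s0 y) = ∑ y ∈ R.erase v, bf a b (s0 y) + bf a b (s0 v) :=
    (Finset.sum_erase_add R (fun y => bf a b (s0 y)) hv).symm
  have hdrop : ∑ y ∈ (R.erase v) \ N,
      bf a b (s0 y + (if y ∈ W then 1 else 0) - (if y ∈ X then (b : ℤ) else 0)) ≤
      ∑ y ∈ R.erase v,
      bf a b (s0 y + (if y ∈ W then 1 else 0) - (if y ∈ X then (b : ℤ) else 0)) :=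
    Finset.sum_le_sum_of_subset_of_nonneg Finset.sdiff_subset fun y _ _ => (hfp _).le
  have hmain : ∑ y ∈ (R.erase v) \ N,
      bf a b (s0 y + (if y ∈ W then 1 else 0) - (if y ∈ X then (b : ℤ) else 0)) ≤
      ∑ y ∈ R, bf a b (s0 y) - bf a b (s0 v) / 4 := by
    refine hdrop.trans ?_
    rw [hsum, e3]
    linarith
  have hle : ∀ y ∈ (R.erase v) \ N,
      s0 y + (if y ∈ W then 1 else 0) - (if y ∈ X then (b : ℤ) else 0) ≤ s0 v + 1 := by
    intro y hy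
    have h1 : y ∈ R := Finset.mem_of_mem_erase (Finset.mem_sdiff.1 hy).1
    have h2 := hmax y h1
    split_ifs <;> omega
  rcases le_or_gt ((a : ℤ) - (12 * b + 2)) (s0 v) with hT | hT
  · refine ⟨s0 v + 1, by omega, hle, ?_⟩
    have h7 : 4 * c ≤ bf a b (s0 v) := by
      have h8 := bf_mono a b hT
      rw [bf_bar] at h8
      have h9 : 4 * c = (a : ℝ) ^ 2 / (12 * b + 2) ^ 2 := by
        rw [hc]
        ring
      linarith
    have h8 : c * ((((s0 v + 1 : ℤ)) : ℝ) - ((a : ℝ) - (12 * b + 2))) =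
        c * (((s0 v : ℤ) : ℝ) - ((a : ℝ) - (12 * b + 2))) + c := by
      push_cast
      ring
    have h9 : c * (((s0 v : ℤ) : ℝ) - ((a : ℝ) - (12 * b + 2))) ≤
        c * ((t : ℝ) - ((a : ℝ) - (12 * b + 2))) :=
      mul_le_mul_of_nonneg_left (by linarith) hc0.le
    rw [h8]
    linarith
  · refine ⟨(a : ℤ) - (12 * b + 2), le_rfl, fun y hy => (hle y hy).trans (by omega), ?_⟩
    have h8 : c * (((((a : ℤ) - (12 * b + 2) : ℤ)) : ℝ) - ((a : ℝ) - (12 * b + 2))) = 0 := by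
      push_cast
      ring
    rw [h8]
    have := hfp (s0 v)
    linarith

end Pool.Agent.Helper72.WD
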