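import Pool.Agent.Helper5.WC.Main
import Pool.Agent.Helper72.WD.Inner
import Pool.Agent.Helper72.WD.Pot

/-!
# Project WD, module M3: the main stage with the barrier potential

Adapted from `Pool/Agent/Helper5/WC/Main.lean` (helper5).
-/

set_option autoImplicit false

namespace Pool.Agent.Helper72.WD

open Finset Pool.Agent.Helper72.WC

variable {n : ℕ}

section Step

variable {b k K l : ℕ} {ρ : Fin n → Fin n → Prop} [DecidableRel ρ]
  {P : Finset (Fin n)} {U C : Finset (Sym2 (Fin n))} {v : Fin n} {X A : Finset (Fin n)}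

/-- The invariant after the step. -/
theorem wd_step {r0 t : ℕ} {τ : ℤ} (hρ : ∀ x y, ρ x y → ρ y x)
    (hr : ∀ x, (univ.filter fun y => ρ x y).card ≤ r0) (hb : 0 < b) (hbn : b ≤ n) (htn : t ≤ n)
    (hK1 : 3 * n ≤ b * K)
    (h : H5Inv b k K l ρ P U C) (hvR : v ∈ h5R K P C)
    (hmax : ∀ y ∈ h5R K P C, h5s b ρ P C y ≤ h5s b ρ P C v)
    (ht : h5s b ρ P C v ≤ t) (hτ : h5s b ρ P C v ≤ τ)
    (hpot : 3 * ∑ y ∈ h5R K P C, h5s b ρ P C y ^ 2 + (t : ℤ) ^ 3 +
      12 * n ^ 2 * (h5S K P C).card ≤ 64 * n * b * P.card)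
    (hnum : (b : ℤ) * (k + 7) + r0 + τ + 1 ≤ n)
    (hXA : X ⊆ A) (hAW : A ⊆ (h5R K P C).erase v ∩ h5ns ρ v) (hcard : A.card = X.card * b)
    (hsp : Sp l (C ∪ X.image fun y => s(v, y)))
    (hWA : ((h5R K P C).erase v ∩ h5ns ρ v).card < A.card + b + b)
    (hsum : ∑ y ∈ A, h5s b ρ P C y - b * ∑ y ∈ X, h5s b ρ P C y ≤ b * (t + 6 * n)) :
    H5Inv b k K l ρ (insert v P) (U \ A.image fun y => s(v, y))
      (C ∪ X.image fun y => s(v, y)) := by
  have hvR' := h5_mem_R.1 hvR
  have hvP := hvR'.1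
  have hXW : X ⊆ (h5R K P C).erase v ∩ h5ns ρ v := hXA.trans hAW
  have hXR : X ⊆ (h5R K P C).erase v := hXW.trans inter_subset_left
  have hXv : v ∉ X := fun h2 => (mem_erase.1 (hXR h2)).1 rfl
  have hXP : ∀ x ∈ X, x ∉ P := fun x hx => (h5_mem_R.1 (mem_erase.1 (hXR hx)).2).1
  have hXU : ∀ x ∈ X, s(v, x) ∈ U := fun x hx =>
    h.hout v x hvP (hXP x hx) (fun h2 => hXv (h2 ▸ hx))
  have hd : ∀ x ∈ X, s(v, x) ∉ C := fun x hx h2 =>
    Finset.disjoint_left.1 h.hd h2 (hXU x hx)
  have hPn : P.card + 1 ≤ n := by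
    rw [← card_insert_of_notMem hvP]
    calc (insert v P).card ≤ (univ : Finset (Fin n)).card := card_le_card (subset_univ _)
      _ = n := by rw [card_univ, Fintype.card_fin]
  have hn : 0 < n := by omega
  have hWn : ((h5R K P C).erase v ∩ h5ns ρ v).card ≤ n := by
    calc _ ≤ (univ : Finset (Fin n)).card := card_le_card (subset_univ _)
      _ = n := by rw [card_univ, Fintype.card_fin]
  have hXb : X.card ≤ n / b := by
    rw [Nat.le_div_iff_mul_le hb, ← hcard]
    exact (card_le_card hAW).trans hWn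
  have hdgv := h5_dg_v (C := C) hXv hd
  have hneg : ∑ y ∈ h5R K P C, h5s b ρ P C y ^ 2 ≥ 0 := sum_nonneg fun y _ => sq_nonneg _
  -- the number of the saturated vertices
  have hSat : (h5S K P C).card ≤ 6 * b := by
    have h1 : (12 * n ^ 2 * (h5S K P C).card : ℤ) ≤ 64 * n * b * P.card := by
      have : (0 : ℤ) ≤ (t : ℤ) ^ 3 := by positivity
      linarith
    have h2 : (64 * n * b * P.card : ℤ) ≤ 64 * n * b * n := by
      have : (P.card : ℤ) ≤ n := by exact_mod_cast (by omega : P.card ≤ n)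
      exact mul_le_mul_of_nonneg_left this (by positivity)
    have h3 : 12 * n ^ 2 * (h5S K P C).card ≤ 64 * n * b * n := by exact_mod_cast h1.trans h2
    by_contra hcon
    have h4 : 6 * b + 1 ≤ (h5S K P C).card := by omega
    have h5 : 12 * n ^ 2 * (6 * b + 1) ≤ 12 * n ^ 2 * (h5S K P C).card :=
      Nat.mul_le_mul_left _ h4
    have h6 : 0 < n ^ 2 := by positivity
    nlinarith
  refine ⟨?_, ?_, ?_, ?_, ?_, hsp, ?_, ?_, ?_, ?_⟩
  · -- C' ⊆ board
    refine union_subset h.hC ?_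
    intro e he
    obtain ⟨x, hx, rfl⟩ := mem_image.1 he
    exact h.hU (hXU x hx)
  · exact sdiff_subset.trans h.hU
  · -- disjoint
    rw [disjoint_union_left]
    refine ⟨h.hd.mono_right sdiff_subset, ?_⟩
    rw [Finset.disjoint_left]
    intro e he he2
    obtain ⟨x, hx, rfl⟩ := mem_image.1 he
    exact (mem_sdiff.1 he2).2 (mem_image.2 ⟨x, hXA hx, rfl⟩)
  · -- reserved pairs
    intro x y hxy hxyρ
    rw [mem_sdiff]
    refine ⟨h.hres x y hxy hxyρ, ?_⟩
    intro he
    obtain ⟨z, hz, h1⟩ := mem_image.1 he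
    have h2 := (h5_mem_ns.1 (mem_inter.1 (hAW hz)).2).2
    rw [Sym2.eq_iff] at h1
    rcases h1 with ⟨h3, h4⟩ | ⟨h3, h4⟩
    · subst h3 h4
      exact h2 hxyρ
    · subst h3 h4
      exact h2 (hρ _ _ hxyρ)
  · -- outer pairs
    intro x y hx hy hxy
    rw [mem_insert, not_or] at hx hy
    rw [mem_sdiff]
    refine ⟨h.hout x y hx.2 hy.2 hxy, ?_⟩
    intro he
    obtain ⟨z, hz, h1⟩ := mem_image.1 he
    rw [Sym2.eq_iff] at h1
    rcases h1 with ⟨h3, _⟩ | ⟨h3, _⟩
    · exact hx.1 h3.symm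
    · exact hy.1 h3.symm
  · -- the degrees of the processed vertices
    intro x hx
    rcases mem_insert.1 hx with rfl | hxP
    · rw [hdgv]
      have hcount := h5_count hr P C K x
      have h1 : (b : ℤ) * (dg C x : ℤ) = h5a ρ P x - h5s b ρ P C x := by
        unfold h5s
        ring
      have h2 : (b : ℤ) * (X.card : ℤ) = A.card := by
        rw [hcard]
        push_cast
        ring
      have h3 : (n : ℤ) ≤ h5a ρ P x + ((h5R K P C).erase x ∩ h5ns ρ x).card +
          (h5S K P C).card + 1 + r0 := by exact_mod_cast hcount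
      have h4 : (((h5R K P C).erase x ∩ h5ns ρ x).card : ℤ) < A.card + b + b := by
        exact_mod_cast hWA
      have h5 : ((h5S K P C).card : ℤ) ≤ 6 * b := by exact_mod_cast hSat
      have h6 : (b : ℤ) * (k + 7) + r0 + τ + 1 ≤ n := hnum
      have h7 : (b : ℤ) * (k - 1) < b * ((dg C x : ℤ) + X.card) := by
        have e1 : (b : ℤ) * ((dg C x : ℤ) + X.card) =
          h5a ρ P x - h5s b ρ P C x + A.card := by
          rw [mul_add, h1, h2]
        rw [e1]
        nlinarith
      have h8 : ((k : ℤ) - 1) < (dg C x : ℤ) + X.card :=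
        lt_of_mul_lt_mul_left h7 (by positivity)
      omega
    · have hxv : x ≠ v := fun h2 => hvP (h2 ▸ hxP)
      have hxX : x ∉ X := fun h2 => hXP x h2 hxP
      rw [h5_dg_o hxv hxX]
      exact h.hlo x hxP
  · -- the degrees of the other vertices
    intro x hx
    rw [mem_insert, not_or] at hx
    by_cases hxX : x ∈ X
    · rw [h5_dg_X hx.1 hxX (hd x hxX)]
      have := (h5_mem_R.1 (mem_erase.1 (hXR hxX)).2).2
      omega
    · rw [h5_dg_o hx.1 hxX]
      exact h.hup x hx.2
  · intro x hx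
    rcases mem_insert.1 hx with rfl | hxP
    · rw [hdgv]
      have := hvR'.2
      omega
    · have hxv : x ≠ v := fun h2 => hvP (h2 ▸ hxP)
      have hxX : x ∉ X := fun h2 => hXP x h2 hxP
      rw [h5_dg_o hxv hxX]
      exact h.hupP x hxP
  · -- the potential
    have hpa := pot_abs (R := h5R K P C) (W := (h5R K P C).erase v ∩ h5ns ρ v) (A := A)
      (X := X) (N := X.filter fun y => K ≤ dg C y + 1) (v := v) (s0 := h5s b ρ P C)
      (n := n) (b := b) (t := t) hb hbn htn hvR inter_subset_left hAW hXA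
      (filter_subset _ _) hcard hWn (by omega) hmax ht
      (hsum.trans (by
        have : (b : ℤ) * t ≤ b * n :=
          mul_le_mul_of_nonneg_left (by exact_mod_cast htn) (by positivity)
        nlinarith)) ?_
    · obtain ⟨t', h1, h2⟩ := hpa
      refine ⟨t', ?_, ?_⟩
      · intro y hy
        rw [h5_R_step hXR hd] at hy
        rw [h5_s_step hρ hvP hd (mem_sdiff.1 hy).1]
        exact h1 y hy
      · rw [h5_R_step hXR hd, h5_S_step hvR hXR hd, card_insert_of_notMem hvP]
        rw [sum_congr rfl fun y hy => by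
          rw [h5_s_step hρ hvP hd (mem_sdiff.1 hy).1]]
        push_cast
        linarith
    · intro y hy
      obtain ⟨hyX, hyK⟩ := mem_filter.1 hy
      have h1 : h5a ρ P y ≤ P.card := card_le_card inter_subset_left
      have h2 : (h5a ρ P y : ℤ) + 1 ≤ n := by exact_mod_cast (by omega : h5a ρ P y + 1 ≤ n)
      have h3 : b * K ≤ b * (dg C y + 1) := Nat.mul_le_mul_left _ hyK
      have h4 : (3 * n : ℤ) ≤ b * (dg C y + 1) := by exact_mod_cast hK1.trans h3
      unfold h5s
      linarith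

/-- The invariant with the barrier. -/
structure Inv2 (a b k K l : ℕ) (ρ : Fin n → Fin n → Prop) [DecidableRel ρ] (P : Finset (Fin n))
    (U C : Finset (Sym2 (Fin n))) : Prop where
  base : H5Inv b k K l ρ P U C
  pot : ∃ t : ℤ, (a : ℤ) - (12 * b + 2) ≤ t ∧ (∀ y ∈ h5R K P C, h5s b ρ P C y ≤ t) ∧
    ∑ y ∈ h5R K P C, bf a b (h5s b ρ P C y) +
      (a : ℝ) ^ 2 / (12 * b + 2) ^ 2 / 4 * ((t : ℝ) - ((a : ℝ) - (12 * b + 2))) ≤ n

/-- The bound for the potentials. -/
theorem wd_bound {a b : ℕ} (hb : 2 ≤ b) (hn : 0 < n) (ha : 14 * b * n ≤ a ^ 2) {t : ℤ} {F : ℝ}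
    (hF : 0 ≤ F)
    (h : F + (a : ℝ) ^ 2 / (12 * b + 2) ^ 2 / 4 * ((t : ℝ) - ((a : ℝ) - (12 * b + 2))) ≤ n) :
    t ≤ a + 37 * b := by
  have hb' : (2 : ℝ) ≤ b := by exact_mod_cast hb
  have hn' : (0 : ℝ) < n := by exact_mod_cast hn
  have ha' : 14 * (b : ℝ) * n ≤ (a : ℝ) ^ 2 := by exact_mod_cast ha
  by_contra hcon
  have h1 : (a : ℤ) + 37 * b + 1 ≤ t := by omega
  have h2 : (a : ℝ) + 37 * b + 1 ≤ t := by exact_mod_cast h1
  have h3 : 49 * (b : ℝ) + 3 ≤ (t : ℝ) - ((a : ℝ) - (12 * b + 2)) := by linarith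
  have hw : (0 : ℝ) < (12 * b + 2) ^ 2 := by positivity
  have h4 : 14 * (b : ℝ) * n / (12 * b + 2) ^ 2 / 4 * (49 * b + 3) ≤
      (a : ℝ) ^ 2 / (12 * b + 2) ^ 2 / 4 * ((t : ℝ) - ((a : ℝ) - (12 * b + 2))) := by
    refine mul_le_mul ?_ h3 (by positivity) (by positivity)
    gcongr
  have h5 : (n : ℝ) < 14 * (b : ℝ) * n / (12 * b + 2) ^ 2 / 4 * (49 * b + 3) := by
    rw [div_div, div_mul_eq_mul_div, lt_div_iff₀ (by positivity)]
    have : ((12 * (b : ℝ) + 2) ^ 2 * 4) < 14 * b * (49 * b + 3) := by nlinarith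
    calc (n : ℝ) * ((12 * (b : ℝ) + 2) ^ 2 * 4) < n * (14 * b * (49 * b + 3)) :=
          mul_lt_mul_of_pos_left this hn'
      _ = 14 * (b : ℝ) * n * (49 * b + 3) := by ring
  linarith

theorem wd_base_start {b k K l : ℕ} {ρ : Fin n → Fin n → Prop} [DecidableRel ρ]
    (hK1 : 3 * n ≤ b * K) {a : ℕ} (ha : 12 * b + 2 ≤ a) :
    Inv2 a b k K l ρ ∅ (board n) ∅ := by
  refine ⟨h5_start hK1, (a : ℤ) - (12 * b + 2), le_rfl, ?_, ?_⟩
  · intro y _
    have : h5s b ρ (∅ : Finset (Fin n)) (∅ : Finset (Sym2 (Fin n))) y = 0 := by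
      simp [h5s, h5a, dg, nb]
    rw [this]
    omega
  · have h0 : ∀ y : Fin n, h5s b ρ (∅ : Finset (Fin n)) (∅ : Finset (Sym2 (Fin n))) y = 0 := by
      intro y
      simp [h5s, h5a, dg, nb]
    have h1 : ∑ y ∈ h5R K (∅ : Finset (Fin n)) (∅ : Finset (Sym2 (Fin n))),
        bf a b (h5s b ρ ∅ ∅ y) ≤ n := by
      rw [sum_congr rfl fun y _ => by rw [h0 y, bf_zero ha]]
      rw [sum_const, nsmul_eq_mul, mul_one]
      have : (h5R K (∅ : Finset (Fin n)) (∅ : Finset (Sym2 (Fin n)))).card ≤ n := by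
        refine (card_le_univ _).trans ?_
        rw [Fintype.card_fin]
      exact_mod_cast this
    push_cast
    rw [sub_self, mul_zero, add_zero]
    exact h1

end Step

theorem main_stage2 {a b k K Δ l r0 : ℕ} {ρ : Fin n → Fin n → Prop} [DecidableRel ρ]
    (hρ : ∀ x y, ρ x y → ρ y x) (hr : ∀ x, (univ.filter fun y => ρ x y).card ≤ r0)
    (hb : 2 ≤ b) (h64 : 64 * b ≤ n) (hK1 : 3 * n ≤ b * K) (hK2 : b * K ≤ 6 * n) (hkK : k ≤ K)
    (hΔ : K + n / b + 1 ≤ Δ) (hβ : (Δ + 1) ^ l ≤ b) (ha : 14 * b * n ≤ a ^ 2)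
    (hnum : b * (k + 44) + r0 + a + 1 ≤ n) :
    Force b (fun U C => C ⊆ board n ∧ U ⊆ board n ∧ Disjoint C U ∧
      (∀ x y, x ≠ y → ρ x y → s(x, y) ∈ U) ∧
      (∀ x, k ≤ dg C x) ∧ (∀ x, dg C x ≤ Δ) ∧ Sp l C) (board n) ∅ := by
  have hb0 : 0 < b := by omega
  have hn0 : 0 < n := by omega
  have hbn : b ≤ n := by omega
  have ha0 : 12 * b + 2 ≤ a := by
    by_contra hcon
    have h1 : a ≤ 12 * b + 1 := by omega
    have h2 : a ^ 2 ≤ (12 * b + 1) ^ 2 := Nat.pow_le_pow_left h1 2
    have h3 : 14 * b * (64 * b) ≤ 14 * b * n := Nat.mul_le_mul_left _ h64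
    nlinarith
  have ha1 : 0 < a := by omega
  have hloop := Force.loop (b := b) (U := board n) (C := (∅ : Finset (Sym2 (Fin n))))
    (fun i U C => ∃ P : Finset (Fin n), (P.card = i ∨ (P.card ≤ i ∧ h5R K P C = ∅)) ∧
      Inv2 a b k K l ρ P U C) n ?_ ⟨∅, Or.inl rfl, wd_base_start hK1 ha0⟩
  · refine hloop.mono ?_
    rintro U C ⟨P, hP, h⟩
    refine h5_end hkK hΔ h.base ?_
    rcases hP with hP | hP
    · have hPu : P = univ := by
        rw [← card_eq_iff_eq_univ, hP, Fintype.card_fin]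
      rw [Finset.eq_empty_iff_forall_notMem]
      intro y hy
      exact (h5_mem_R.1 hy).1 (hPu ▸ mem_univ y)
    · exact hP.2
  · rintro i hi U C ⟨P, hP, h2⟩
    have h := h2.base
    by_cases hR : h5R K P C = ∅
    · refine Force.here ⟨P, Or.inr ⟨?_, hR⟩, h2⟩
      rcases hP with hP | hP
      · omega
      · omega
    · have hPi : P.card = i := by
        rcases hP with hP | hP
        · exact hP
        · exact absurd hP.2 hR
      obtain ⟨v, hvR, hmax⟩ := exists_max_image (h5R K P C) (h5s b ρ P C)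
        (nonempty_iff_ne_empty.2 hR)
      obtain ⟨t, ht, hpot⟩ := h.hpot
      obtain ⟨τ, hτb, hτ, hpot2⟩ := h2.pot
      have hvR' := h5_mem_R.1 hvR
      have hPn : P.card ≤ n := by
        calc P.card ≤ (univ : Finset (Fin n)).card := card_le_card (subset_univ _)
          _ = n := by rw [card_univ, Fintype.card_fin]
      have hneg : ∑ y ∈ h5R K P C, h5s b ρ P C y ^ 2 ≥ 0 := sum_nonneg fun y _ => sq_nonneg _
      have ht3 : t ^ 3 ≤ n ^ 3 := by
        have h1 : (t : ℤ) ^ 3 ≤ 64 * n * b * P.card := by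
          have : (0 : ℤ) ≤ 12 * n ^ 2 * (h5S K P C).card := by positivity
          linarith
        have h2 : (64 * n * b * P.card : ℤ) ≤ 64 * n * b * n := by
          have : (P.card : ℤ) ≤ n := by exact_mod_cast hPn
          exact mul_le_mul_of_nonneg_left this (by positivity)
        have h3 : t ^ 3 ≤ 64 * n * b * n := by exact_mod_cast h1.trans h2
        calc t ^ 3 ≤ 64 * n * b * n := h3
          _ = n ^ 2 * (64 * b) := by ring
          _ ≤ n ^ 2 * n := Nat.mul_le_mul_left _ h64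
          _ = n ^ 3 := by ring
      have htn : t ≤ n := le_of_pow_le_pow_left₀ (by norm_num) (Nat.zero_le _) ht3
      have hτ37 : τ ≤ a + 37 * b :=
        wd_bound hb hn0 ha (sum_nonneg fun y _ => (bf_pos ha1 _).le) hpot2
      have hnum2 : (b : ℤ) * (k + 7) + r0 + τ + 1 ≤ n := by
        have : (b : ℤ) * (k + 44) + r0 + a + 1 ≤ n := by exact_mod_cast hnum
        linarith
      have hWR : (h5R K P C).erase v ∩ h5ns ρ v ⊆ (h5R K P C).erase v := inter_subset_left
      have hWv : v ∉ (h5R K P C).erase v ∩ h5ns ρ v := fun h2 =>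
        (mem_erase.1 (hWR h2)).1 rfl
      have hWn : ((h5R K P C).erase v ∩ h5ns ρ v).card ≤ n := by
        calc _ ≤ (univ : Finset (Fin n)).card := card_le_card (subset_univ _)
          _ = n := by rw [card_univ, Fintype.card_fin]
      have hlow : ∀ y ∈ h5R K P C, -(6 * (n : ℤ)) ≤ h5s b ρ P C y := by
        intro y hy
        have h1 := (h5_mem_R.1 hy).2
        have h2 : b * dg C y ≤ 6 * n := (Nat.mul_le_mul_left _ h1.le).trans hK2
        have h3 : (b : ℤ) * dg C y ≤ 6 * n := by exact_mod_cast h2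
        unfold h5s
        have h4 : (0 : ℤ) ≤ h5a ρ P y := by positivity
        linarith
      have hin := inner2 (b := b) (l := l) (β := b) (v := v)
        (W := (h5R K P C).erase v ∩ h5ns ρ v) (s0 := h5s b ρ P C) (t := h5s b ρ P C v)
        (m := 6 * n) (U := U) (C := C) hb0 h.hC h.hsp hWv ?_ ?_ ?_
        (by have := hlow v hvR; linarith) ?_
      · refine hin.mono ?_
        rintro U' C' ⟨A, X, hXA, hAW, hcard, rfl, rfl, hsp, hWA, hsum, hfun⟩
        refine ⟨insert v P, Or.inl ?_, ?_⟩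
        · rw [card_insert_of_notMem hvR'.1, hPi]
        · have hXR : X ⊆ (h5R K P C).erase v := (hXA.trans hAW).trans inter_subset_left
          have hXU : ∀ x ∈ X, s(v, x) ∈ U := fun x hx => by
            have h1 := mem_erase.1 (hXR hx)
            exact h.hout v x hvR'.1 (h5_mem_R.1 h1.2).1 h1.1.symm
          have hd : ∀ x ∈ X, s(v, x) ∉ C := fun x hx h2 =>
            Finset.disjoint_left.1 h.hd h2 (hXU x hx)
          refine ⟨wd_step hρ hr hb0 hbn htn hK1 h hvR hmax (ht v hvR) (hτ v hvR) hpot hnum2 hXA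
            hAW hcard hsp hWA (hsum.trans ?_), ?_⟩
          · refine mul_le_mul_of_nonneg_left ?_ (by positivity)
            have := ht v hvR
            linarith
          · obtain ⟨t', h3, h4, h5⟩ := pot2 (R := h5R K P C)
              (W := (h5R K P C).erase v ∩ h5ns ρ v) (A := A) (X := X)
              (N := X.filter fun y => K ≤ dg C y + 1) (v := v) (s0 := h5s b ρ P C) (n := n)
              (b := b) (a := a) (by omega) ha1 ha hvR inter_subset_left hAW hXA
              (filter_subset _ _) (by omega) hmax hfun hτb (hτ v hvR) hpot2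
            refine ⟨t', h3, ?_, ?_⟩
            · intro y hy
              rw [h5_R_step hXR hd] at hy
              rw [h5_s_step hρ hvR'.1 hd (mem_sdiff.1 hy).1]
              exact h4 y hy
            · rw [h5_R_step hXR hd]
              rw [sum_congr rfl fun y hy => by
                rw [h5_s_step hρ hvR'.1 hd (mem_sdiff.1 hy).1]]
              exact h5
      · intro y hy
        have h1 := mem_erase.1 (hWR hy)
        exact h.hout v y hvR'.1 (h5_mem_R.1 h1.2).1 h1.1.symm
      · intro y hy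
        exact hmax y (mem_erase.1 (hWR hy)).2
      · intro y hy
        exact hlow y (mem_erase.1 (hWR hy)).2
      · intro X hX hXb
        refine (ball_card (Δ := Δ) ?_ l v).trans hβ
        intro x
        have hXv : v ∉ X := fun h2 => hWv (hX h2)
        have hXn : X.card ≤ n / b := by
          rw [Nat.le_div_iff_mul_le hb0]
          exact hXb.trans hWn
        by_cases hxv : x = v
        · subst hxv
          have h1 := h5_dg_v_le (C := C) hXv
          have h2 := hvR'.2
          omega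
        · have h1 := h5_dg_le (C := C) (X := X) hxv
          by_cases hxP : x ∈ P
          · have h2 := h.hupP x hxP
            omega
          · have h2 := h.hup x hxP
            have h3 := Nat.zero_le (n / b)
            omega

end Pool.Agent.Helper72.WD
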