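import Mathlib

/-!
# Project WD, module N: the numbers

PROOF of `lc_num2` (as `lc_num` in `Pool/Agent/Helper72/WC/Lower.lean`, copy its pattern).  Write
`κ = k + 159 L`.  From `ha` and `κ b ≤ n`, `16 L² ≤ κ`: `(4 L (a - 1))² = 16 L² (a-1)² ≤ 16 L² 14 b n ≤
14 κ b n ≤ 14 n² ≤ (15/4 n)²`, so `16 L (a - 1) ≤ 15 n`.  Multiply the goal by `16 L κ`:
`16 L κ b (k+44) ≤ 16 L (k+44) n`, `16 L κ 4 (n/L) ≤ 64 κ n`, `16 L κ (a-1) ≤ 15 κ n`,
`16 L κ 6 ≤ n` (`hn`), and `704 L + 79 κ + 1 ≤ 2544 L²` (`κ ≤ 16 (L+1)² + 159 L`, `13 ≤ L`), where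
`16 L κ = 16 L k + 2544 L²`.
-/

set_option autoImplicit false

namespace Pool.Agent.Helper72.WD

/-- The numerical condition of the main stage. -/
theorem lc_num2 {L k n b a : ℕ} (hL : 13 ≤ L) (h1 : 16 * L ^ 2 ≤ k)
    (h2 : k < 16 * (L + 1) ^ 2) (hb : (k + 159 * L) * b ≤ n)
    (hn : 96 * L * (k + 159 * L) ≤ n) (ha : (a - 1) ^ 2 ≤ 14 * b * n) (ha0 : 0 < a) :
    b * (k + 44) + 4 * (n / L + 1) + a + 1 ≤ n := by
  have hL0 : 0 < L := by omega
  obtain ⟨s, rfl⟩ : ∃ s, a = s + 1 := ⟨a - 1, by omega⟩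
  rw [Nat.add_sub_cancel] at ha
  set κ := k + 159 * L with hκ
  have hκ16 : 16 * L ^ 2 ≤ κ := by omega
  -- the bound for `s`
  have h3 : 16 * L * s ≤ 15 * n := by
    have h4 : 16 * L ^ 2 * s ^ 2 ≤ 14 * n ^ 2 := by
      calc 16 * L ^ 2 * s ^ 2 ≤ 16 * L ^ 2 * (14 * b * n) := Nat.mul_le_mul_left _ ha
        _ = 14 * n * (16 * L ^ 2 * b) := by ring
        _ ≤ 14 * n * (κ * b) := Nat.mul_le_mul_left _ (Nat.mul_le_mul_right _ hκ16)
        _ ≤ 14 * n * n := Nat.mul_le_mul_left _ hb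
        _ = 14 * n ^ 2 := by ring
    have h5 : (16 * L * s) ^ 2 ≤ (15 * n) ^ 2 := by
      calc (16 * L * s) ^ 2 = 16 * (16 * L ^ 2 * s ^ 2) := by ring
        _ ≤ 16 * (14 * n ^ 2) := Nat.mul_le_mul_left _ h4
        _ = 224 * n ^ 2 := by ring
        _ ≤ 225 * n ^ 2 := Nat.mul_le_mul_right _ (by norm_num)
        _ = (15 * n) ^ 2 := by ring
    exact le_of_pow_le_pow_left₀ (by norm_num) (Nat.zero_le _) h5
  have h8 : L * (n / L) ≤ n := Nat.mul_div_le n L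
  have hκpos : 0 < κ := by omega
  have h9 : 704 * L + 79 * κ + 1 ≤ 2544 * L ^ 2 := by
    have h10 : κ + 1 ≤ 16 * (L + 1) ^ 2 + 159 * L := by omega
    obtain ⟨m, rfl⟩ := Nat.exists_eq_add_of_le hL
    nlinarith [sq_nonneg m, h10]
  have h11 : 16 * L * κ * (b * (k + 44) + 4 * (n / L + 1) + (s + 1) + 1) ≤ 16 * L * κ * n := by
    have e1 : 16 * L * κ * (b * (k + 44)) ≤ 16 * L * n * (k + 44) := by
      calc 16 * L * κ * (b * (k + 44)) = 16 * L * (κ * b) * (k + 44) := by ring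
        _ ≤ 16 * L * n * (k + 44) := Nat.mul_le_mul_right _ (Nat.mul_le_mul_left _ hb)
    have e2 : 16 * L * κ * (4 * (n / L)) ≤ 64 * κ * n := by
      calc 16 * L * κ * (4 * (n / L)) = 64 * κ * (L * (n / L)) := by ring
        _ ≤ 64 * κ * n := Nat.mul_le_mul_left _ h8
    have e3 : 16 * L * κ * s ≤ 15 * κ * n := by
      calc 16 * L * κ * s = κ * (16 * L * s) := by ring
        _ ≤ κ * (15 * n) := Nat.mul_le_mul_left _ h3
        _ = 15 * κ * n := by ring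
    have e4 : 16 * L * κ * 6 ≤ n := by
      calc 16 * L * κ * 6 = 96 * L * κ := by ring
        _ ≤ n := hn
    have e5 : 16 * L * κ * n = 16 * L * n * k + 2544 * L ^ 2 * n := by
      rw [hκ]; ring
    have e6 : (704 * L + 79 * κ + 1) * n ≤ 2544 * L ^ 2 * n := Nat.mul_le_mul_right _ h9
    have e7 : 16 * L * κ * (b * (k + 44) + 4 * (n / L + 1) + (s + 1) + 1) =
        16 * L * κ * (b * (k + 44)) + 16 * L * κ * (4 * (n / L)) + 16 * L * κ * s +
          16 * L * κ * 6 := by ring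
    have e8 : 16 * L * n * (k + 44) = 16 * L * n * k + 704 * L * n := by ring
    have e9 : (704 * L + 79 * κ + 1) * n = 704 * L * n + 79 * κ * n + n := by ring
    have e10 : 64 * κ * n + 15 * κ * n = 79 * κ * n := by ring
    rw [e7]
    omega
  exact Nat.le_of_mul_le_mul_left h11 (by positivity)

end Pool.Agent.Helper72.WD
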