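import Pool.Agent.Helper72.WC.Lower
import Pool.Agent.Helper72.WD.Main
import Pool.Agent.Helper72.WD.Seeds
import Pool.Agent.Helper72.WD.Num

set_option autoImplicit false

namespace Pool.Agent.Helper72.WD

open Finset Pool.Agent.Helper72.WC

variable {n : ℕ}

/-- The bound for `n`. -/
def N02 (k L : ℕ) : ℕ :=
  (k + 159 * L) * (8 * (k + 159 * L) + 2) ^
      ((k - 1) * (8 * (k + 159 * L) + 2) ^ 2 + k) +
    96 * L * (k + 159 * L) +
    3 * L * (k + 1 + k * (8 * (k + 159 * L) + 2) ^ 2 *
      ((8 * (k + 159 * L) + 2) ^ 2 + 1) ^ L) +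
    6 * k * L + 2 * (k + 159 * L)

theorem lower_core2 {L k n : ℕ} (hL : 13 ≤ L) (h1 : 16 * L ^ 2 ≤ k)
    (h2 : k < 16 * (L + 1) ^ 2) (hn : N02 k L ≤ n) :
    Win (n / (k + 159 * L)) (fun C => KConn k (gr C)) (board n) ∅ := by
  classical
  have hL0 : 0 < L := by omega
  have : NeZero L := ⟨by omega⟩
  set κ := k + 159 * L with hκ
  have hκpos : 0 < κ := by omega
  set Δ := 8 * κ + 1 with hΔ
  set K0 := (Δ + 1) ^ 2 with hK0
  set l := (k - 1) * K0 + k with hl
  set c1 := k * K0 * (K0 + 1) ^ L with hc1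
  have hN : κ * (Δ + 1) ^ l + 96 * L * κ + 3 * L * (k + 1 + c1) + 6 * k * L + 2 * κ ≤ n := hn
  have hL169 : 13 ^ 2 ≤ L ^ 2 := Nat.pow_le_pow_left hL 2
  have hk2 : 2704 ≤ k := by omega
  set b := n / κ with hb
  have hbn : κ * b ≤ n := Nat.mul_div_le _ _
  have hbn2 : n < κ * (b + 1) := Nat.lt_mul_div_succ _ hκpos
  have hβ : (Δ + 1) ^ l ≤ b := by
    rw [hb, Nat.le_div_iff_mul_le hκpos, mul_comm]
    omega
  have hbpos : 0 < b := lt_of_lt_of_le (by positivity) hβ
  have h2κ : 2 * κ ≤ n := by omega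
  have hn2 : n ≤ 2 * κ * b := by nlinarith
  have hnb : n / b ≤ 2 * κ := by
    rw [Nat.div_le_iff_le_mul_add_pred hbpos]
    have : 2 * κ * b ≤ b * (2 * κ) + (b - 1) := by nlinarith
    omega
  have hkn : k < n := by
    have : 6 * k * L ≤ n := by omega
    nlinarith
  have hN96 : 96 * L * κ ≤ n := by omega
  have hNc1 : 3 * L * (k + 1 + c1) ≤ n := by omega
  -- the main stage
  have hb2 : 2 ≤ b := by
    rw [hb, Nat.le_div_iff_mul_le hκpos]
    omega
  have hn0 : 0 < n := by omega
  have h64 : 64 * b ≤ n := le_trans (Nat.mul_le_mul_right _ (by omega)) hbn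
  have hsq1 : 14 * b * n ≤ (Nat.sqrt (14 * b * n) + 1) ^ 2 := (Nat.lt_succ_sqrt' _).le
  have hsq2 : (Nat.sqrt (14 * b * n) + 1 - 1) ^ 2 ≤ 14 * b * n := by
    rw [Nat.add_sub_cancel]
    exact Nat.sqrt_le' _
  have hmain := main_stage2 (n := n) (a := Nat.sqrt (14 * b * n) + 1) (b := b) (k := k)
    (K := 6 * κ) (Δ := Δ) (l := l)
    (r0 := 4 * (n / L + 1)) (ρ := fun x y => relA L x y ∨ relB L x y)
    (by
      rintro x y (h | h)
      · exact Or.inl h.symm
      · exact Or.inr h.symm)
    (fun x => card_rel x) hb2 h64 (by nlinarith) (by nlinarith) (by omega) (by omega) hβ hsq1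
    (lc_num2 hL h1 h2 hbn hN96 hsq2 (by omega))
  refine Force.win hbpos (fun C C' h => KConn.mono h) (hmain.trans ?_)
  rintro U1 C1 ⟨hC1, hU1, _, hres, hlo, hup, hsp⟩
  obtain ⟨f, hff, hconn, hcl1, hcl2⟩ := clusters hC1 hlo hup
  obtain ⟨g, hg, hg2⟩ := split (L := L) (k := k) (K0 := K0) (by omega) hff hcl2
  have hclass : ∀ (j : Fin k) (r : ZMod L),
      2 * n / (3 * k * L) ≤ (fib L (univ.filter fun v => g v = j) r).card ∧
      (fib L (univ.filter fun v => g v = j) r).card ≤ 2 * (2 * n / (3 * k * L)) := by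
    intro j r
    exact lc_class hL0 (by omega) hNc1 (card_fib_univ r).1 (card_fib_univ r).2
      (hg2 j r).1 (hg2 j r).2
  set d := 2 * n / (3 * k * L) with hd
  have hpos : 0 < 3 * k * L := by positivity
  have hd1 : 2 * n < 3 * k * L * (d + 1) := Nat.lt_mul_div_succ _ hpos
  have hdnum : 8 * L * b ≤ d * (k + 1) := by
    have e1 : 16 * L ^ 2 * b ≤ n := by
      refine le_trans (Nat.mul_le_mul_right _ ?_) hbn
      omega
    have e2 : 6 * k * L ≤ n := by omega
    have e3 : 3 * L * (8 * L * b) ≤ 3 * L * (d * (k + 1)) := by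
      have e4 : 3 * L * (8 * L * b) = 24 * (L ^ 2 * b) := by ring
      have e5 : 16 * (L ^ 2 * b) ≤ n := by
        calc 16 * (L ^ 2 * b) = 16 * L ^ 2 * b := by ring
          _ ≤ n := e1
      have e6 : 3 * k * L * (d + 1) = 3 * L * (d * k) + 3 * k * L := by ring
      have e7 : 3 * L * (d * (k + 1)) = 3 * L * (d * k) + 3 * L * d := by ring
      have e8 : 6 * k * L = 2 * (3 * k * L) := by ring
      omega
    exact Nat.le_of_mul_le_mul_left e3 (by positivity)
  have hdpos : 0 < d := by
    rcases Nat.eq_zero_or_pos d with h0 | h0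
    · rw [h0, zero_mul] at hdnum
      have : 0 < 8 * L * b := by positivity
      omega
    · exact h0
  -- the seeds
  refine (seeds2 (n := n) (b := b) (L := L) (d := d) (M := k + 1) hbpos (by omega) hdpos hff hg
    (fun j r => (hclass j r).1) (fun j r => (hclass j r).2) hcl1 hdnum hconn
    (fun x y hxy h => hres x y hxy (Or.inl h))).trans ?_
  rintro U2 C2 ⟨hC12, hC2, hU2, hused, X, hX⟩
  have hA : ∀ x y : Fin n, relA L x y → relB L x y → False := by
    intro x y hA hB
    have h3 : (3 : ZMod L) ≠ 0 := by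
      intro h
      have : ((3 : ℕ) : ZMod L) = 0 := by exact_mod_cast h
      rw [ZMod.natCast_eq_zero_iff] at this
      have := Nat.le_of_dvd (by norm_num) this
      omega
    have h4 : (1 : ZMod L) ≠ 0 := by
      intro h
      have : ((1 : ℕ) : ZMod L) = 0 := by exact_mod_cast h
      rw [ZMod.natCast_eq_zero_iff] at this
      have := Nat.le_of_dvd (by norm_num) this
      omega
    rcases hA with hA | hA <;> rcases hB with hB | hB
    · apply h4
      have : rs L x + 1 = rs L x + 2 := hA.symm.trans hB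
      linear_combination -this
    · apply h3
      have : rs L x = rs L x + 1 + 2 := by rw [← hA]; exact hB
      linear_combination -this
    · apply h3
      have : rs L y = rs L y + 1 + 2 := by rw [← hA]; exact hB
      linear_combination -this
    · apply h4
      have : rs L y + 1 = rs L y + 2 := hA.symm.trans hB
      linear_combination -this
  have hAs : ∀ x y : Fin n, relA L x y → relA L y x := fun x y h => h.symm
  -- the attachments
  refine (attach (n := n) (b := b) (L := L) (d := d) (M := k + 1) (by omega) hbpos hff (X := X)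
    ?_ (fun j => (hX j).2.1) (fun j => (hX j).2.2.2) hcl1 ?_ (U := U2) (C := C2) ?_).mono ?_
  · intro i j hij
    rw [Finset.disjoint_left]
    intro v hvi hvj
    exact hij (((hX i).1 v hvi).symm.trans ((hX j).1 v hvj))
  · nlinarith
  · intro x y hxy hB
    by_contra hno
    obtain ⟨x', y', hA', he⟩ := hused _ (hres x y hxy (Or.inr hB)) hno
    rw [Sym2.eq_iff] at he
    rcases he with ⟨rfl, rfl⟩ | ⟨rfl, rfl⟩
    · exact hA _ _ hA' hB
    · exact hA _ _ (hAs _ _ hA') hB
  · rintro U3 C3 ⟨hC23, hC3, hatt⟩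
    have hC13 : C1 ⊆ C3 := hC12.trans hC23
    refine criterion (m0 := (k - 1) * K0) (K0 := K0) (by omega) hkn ?_
      (fun v => (hconn v).mono hC13) hcl2 le_rfl (X := X) (fun j => ((hX j).2.2.1).mono hC23) ?_
      hatt
    · intro A hAne hAc
      refine (small_sets hC1 hsp hlo (le_trans (by norm_num) hk2) hAne (by omega)).trans (Finset.card_le_card ?_)
      refine Finset.sdiff_subset_sdiff ?_ le_rfl
      refine Finset.biUnion_mono fun x _ => ?_
      intro y hy
      simp only [nb, Finset.mem_filter, Finset.mem_univ, true_and] at hy ⊢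
      exact hC13 hy
    · intro i j hij
      rw [Finset.disjoint_left]
      intro v hvi hvj
      exact hij (((hX i).1 v hvi).symm.trans ((hX j).1 v hvj))

end Pool.Agent.Helper72.WD
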