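import Pool.Agent.Helper72.WC.Final
import Pool.Agent.Helper72.WD.Lower

set_option autoImplicit false

namespace Pool.Agent.Helper72.WD

open Finset Pool.Agent.Helper72.WC

variable {n : ℕ}

/-- The lower bound with the second order term `40 √k`. -/
theorem lower_sqrt {k : ℕ} (hk : 2704 ≤ k) : ∃ n0 : ℕ, ∀ n ≥ n0,
    (n : ℝ) / (k + 40 * √(k : ℝ)) ≤ qC k n := by
  -- the choice of `L`
  obtain ⟨L, hL, h1, h2⟩ : ∃ L, 13 ≤ L ∧ 16 * L ^ 2 ≤ k ∧ k < 16 * (L + 1) ^ 2 := by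
    refine ⟨Nat.sqrt (k / 16), ?_, ?_, ?_⟩
    · rw [Nat.le_sqrt']
      rw [Nat.le_div_iff_mul_le (by norm_num)]
      omega
    · have := Nat.sqrt_le' (k / 16)
      have h3 := Nat.mul_div_le k 16
      omega
    · have := Nat.lt_succ_sqrt' (k / 16)
      rw [Nat.succ_eq_add_one] at this
      omega
  set κ := k + 159 * L with hκ
  have hκpos : 0 < κ := by omega
  have hκ' : (0 : ℝ) < κ := by exact_mod_cast hκpos
  have hk' : (0 : ℝ) < k := by exact_mod_cast (by omega : 0 < k)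
  set D : ℝ := k + 40 * √(k : ℝ) with hD
  -- `κ < D`
  have hκD : (κ : ℝ) < D := by
    have h3 : 4 * (L : ℝ) ≤ √(k : ℝ) := by
      refine Real.le_sqrt_of_sq_le ?_
      have : (16 * L ^ 2 : ℝ) ≤ k := by exact_mod_cast h1
      nlinarith
    have h4 : (0 : ℝ) < L := by exact_mod_cast (by omega : 0 < L)
    rw [hκ, hD]
    push_cast
    linarith
  have hDpos : 0 < D := hκ'.trans hκD
  obtain ⟨n1, hn1⟩ := exists_nat_gt (2 * κ * D / (D - κ))
  refine ⟨n1 + N02 k L + 3 * κ, fun n hn => ?_⟩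
  have hwin := lower_core2 hL h1 h2 (n := n) (by omega)
  rw [← hκ] at hwin
  have hb : 3 ≤ n / κ := by
    rw [Nat.le_div_iff_mul_le hκpos]; omega
  have hkn : 2 ≤ n := by omega
  obtain ⟨q, hq⟩ : ∃ q, n / κ = q + 1 := ⟨n / κ - 1, by omega⟩
  rw [hq] at hwin
  have h9 : q ≤ qC k n :=
    le_csSup ((bdd_D (by omega) hkn).mono sub_CD) ⟨by omega, hwin⟩
  refine le_trans ?_ (Nat.cast_le.2 h9)
  have h10 : (n : ℝ) < κ * (q + 2) := by
    have := Nat.lt_mul_div_succ n hκpos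
    rw [hq] at this
    exact_mod_cast this
  have h11 : (2 : ℝ) * κ * D ≤ n * (D - κ) := by
    have h12 : (2 : ℝ) * κ * D / (D - κ) ≤ n := by
      refine hn1.le.trans ?_
      exact_mod_cast (by omega : n1 ≤ n)
    rwa [div_le_iff₀ (by linarith)] at h12
  rw [div_le_iff₀ hDpos]
  have h13 : (κ : ℝ) * n ≤ κ * (q * D) := by
    have h14 : ((n : ℝ) - 2 * κ) * D ≤ κ * q * D := by
      refine mul_le_mul_of_nonneg_right ?_ hDpos.le
      linarith
    nlinarith
  exact le_of_mul_le_mul_left h13 hκ'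

end Pool.Agent.Helper72.WD
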