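import Mathlib

/-!
# Project WD (MP_c8f8f3_co), module F: the barrier function

`bf a b s = a² / (a - s)²` for `s ≤ a - (12 b + 2)`, continued linearly (with the last slope).
PROOFS.  Write `w = a - s`, `w0 = 12 b + 2`.  `D s = bf (s+1) - bf s`: for `s ≤ a - w0 - 1` it is
`a² (2 w - 1) / (w² (w - 1)²)`, decreasing in `w`; for `s ≥ a - w0` it is the constant
`D (a - w0 - 1)`.
* `6 b D s ≤ f s`: with `u = w - 1 ≥ 12 b + 2`: `6 b (2 u + 1) = 12 b u + 6 b ≤ u²`; for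
  `s ≥ a - w0` use the value at `a - w0 - 1` and monotonicity of `bf`.
-/

set_option autoImplicit false

namespace Pool.Agent.Helper72.WD

/-- The barrier function. -/
noncomputable def bf (a b : ℕ) (s : ℤ) : ℝ :=
  if s ≤ a - (12 * b + 2) then (a : ℝ) ^ 2 / ((a : ℝ) - s) ^ 2
  else (a : ℝ) ^ 2 / (12 * b + 2) ^ 2 +
    ((a : ℝ) ^ 2 / (12 * b + 2) ^ 2 - (a : ℝ) ^ 2 / (12 * b + 3) ^ 2) *
      ((s : ℝ) - (a - (12 * b + 2)))

theorem wd_Fun_lo {a b : ℕ} {s : ℤ} (h : s ≤ a - (12 * b + 2)) :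
    bf a b s = (a : ℝ) ^ 2 / ((a : ℝ) - s) ^ 2 := by
  unfold bf
  rw [if_pos h]

theorem wd_Fun_hi {a b : ℕ} {s : ℤ} (h : (a : ℤ) - (12 * b + 2) ≤ s) :
    bf a b s = (a : ℝ) ^ 2 / (12 * b + 2) ^ 2 +
    ((a : ℝ) ^ 2 / (12 * b + 2) ^ 2 - (a : ℝ) ^ 2 / (12 * b + 3) ^ 2) *
      ((s : ℝ) - (a - (12 * b + 2))) := by
  unfold bf
  split_ifs with h1
  · have h2 : s = (a : ℤ) - (12 * b + 2) := le_antisymm h1 h
    subst h2
    push_cast
    have e1 : (a : ℝ) - ((a : ℝ) - (12 * b + 2)) = 12 * b + 2 := by ring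
    rw [e1]
    ring
  · rfl

theorem wd_Fun_D_lo {a b : ℕ} {s : ℤ} (h : s + 1 ≤ a - (12 * b + 2)) :
    bf a b (s + 1) - bf a b s =
      (a : ℝ) ^ 2 / ((a : ℝ) - s - 1) ^ 2 - (a : ℝ) ^ 2 / ((a : ℝ) - s - 1 + 1) ^ 2 := by
  rw [wd_Fun_lo h, wd_Fun_lo (by linarith)]
  push_cast
  have e1 : (a : ℝ) - ((s : ℝ) + 1) = (a : ℝ) - s - 1 := by ring
  have e2 : (a : ℝ) - s = (a : ℝ) - s - 1 + 1 := by ring
  rw [e1]
  rw [← e2]

theorem wd_Fun_D_hi {a b : ℕ} {s : ℤ} (h : (a : ℤ) - (12 * b + 2) ≤ s) :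
    bf a b (s + 1) - bf a b s =
      (a : ℝ) ^ 2 / (12 * b + 2) ^ 2 - (a : ℝ) ^ 2 / (12 * b + 3) ^ 2 := by
  rw [wd_Fun_hi h, wd_Fun_hi (by linarith)]
  push_cast
  ring

theorem wd_Fun_le {a b : ℕ} {s : ℤ} (h : s + 1 ≤ a - (12 * b + 2)) :
    (12 : ℝ) * b + 2 ≤ (a : ℝ) - s - 1 := by
  have h1 : (s : ℝ) + 1 ≤ (a : ℝ) - (12 * b + 2) := by exact_mod_cast h
  linarith

theorem wd_Fun_slope (a b : ℕ) :
    0 ≤ (a : ℝ) ^ 2 / (12 * b + 2) ^ 2 - (a : ℝ) ^ 2 / (12 * b + 3) ^ 2 := by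
  have hb0 : (0 : ℝ) ≤ b := Nat.cast_nonneg b
  have h2 : (a : ℝ) ^ 2 / (12 * b + 3) ^ 2 ≤ (a : ℝ) ^ 2 / (12 * b + 2) ^ 2 := by
    apply div_le_div_of_nonneg_left (by positivity) (by positivity)
    apply pow_le_pow_left₀ (by positivity)
    linarith
  linarith

theorem wd_Fun_conv (a : ℝ) {u : ℝ} (hu : 0 < u) :
    a ^ 2 / (u + 1) ^ 2 - a ^ 2 / (u + 1 + 1) ^ 2 ≤ a ^ 2 / u ^ 2 - a ^ 2 / (u + 1) ^ 2 := by
  have key : (a ^ 2 / u ^ 2 - a ^ 2 / (u + 1) ^ 2) -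
      (a ^ 2 / (u + 1) ^ 2 - a ^ 2 / (u + 1 + 1) ^ 2) =
      a ^ 2 * (6 * u ^ 2 + 12 * u + 4) / (u ^ 2 * (u + 1) ^ 2 * (u + 1 + 1) ^ 2) := by
    have h1 : u ≠ 0 := hu.ne'
    have h2 : u + 1 ≠ 0 := by positivity
    have h3 : u + 1 + 1 ≠ 0 := by positivity
    field_simp
    ring
  have h4 : 0 ≤ a ^ 2 * (6 * u ^ 2 + 12 * u + 4) / (u ^ 2 * (u + 1) ^ 2 * (u + 1 + 1) ^ 2) := by
    positivity
  linarith

theorem wd_Fun_six (a : ℝ) {b u : ℝ} (hb : 0 ≤ b) (hu : 12 * b + 2 ≤ u) :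
    6 * b * (a ^ 2 / u ^ 2 - a ^ 2 / (u + 1) ^ 2) ≤ a ^ 2 / (u + 1) ^ 2 := by
  have hu0 : 0 < u := by linarith
  have key : a ^ 2 / (u + 1) ^ 2 - 6 * b * (a ^ 2 / u ^ 2 - a ^ 2 / (u + 1) ^ 2) =
      a ^ 2 * (u ^ 2 - 6 * b * (2 * u + 1)) / (u ^ 2 * (u + 1) ^ 2) := by
    have h1 : u ≠ 0 := hu0.ne'
    have h2 : u + 1 ≠ 0 := by positivity
    field_simp
    ring
  have h3 : 0 ≤ u ^ 2 - 6 * b * (2 * u + 1) := by
    nlinarith [mul_nonneg hu0.le (sub_nonneg.2 hu)]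
  have h4 : 0 ≤ a ^ 2 * (u ^ 2 - 6 * b * (2 * u + 1)) / (u ^ 2 * (u + 1) ^ 2) := by
    positivity
  linarith

theorem bf_pos {a b : ℕ} (ha : 0 < a) (s : ℤ) : 0 < bf a b s := by
  have hb0 : (0 : ℝ) ≤ b := Nat.cast_nonneg b
  have ha0 : (0 : ℝ) < a := by exact_mod_cast ha
  rcases le_total s ((a : ℤ) - (12 * b + 2)) with h | h
  · rw [wd_Fun_lo h]
    have h1 : (s : ℝ) ≤ (a : ℝ) - (12 * b + 2) := by exact_mod_cast h
    have h2 : 0 < (a : ℝ) - s := by linarith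
    positivity
  · rw [wd_Fun_hi h]
    have h1 : (a : ℝ) - (12 * b + 2) ≤ (s : ℝ) := by exact_mod_cast h
    have h2 := wd_Fun_slope a b
    have h3 : 0 ≤ (s : ℝ) - (a - (12 * b + 2)) := by linarith
    have h4 := mul_nonneg h2 h3
    have h5 : 0 < (a : ℝ) ^ 2 / (12 * b + 2) ^ 2 := by positivity
    linarith

theorem bf_zero {a b : ℕ} (ha : 12 * b + 2 ≤ a) : bf a b 0 = 1 := by
  have h1 : (0 : ℤ) ≤ (a : ℤ) - (12 * b + 2) := by
    have : (12 * b + 2 : ℤ) ≤ a := by exact_mod_cast ha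
    linarith
  rw [wd_Fun_lo h1]
  have h2 : (0 : ℝ) < a := by
    have : 0 < a := by omega
    exact_mod_cast this
  push_cast
  rw [sub_zero]
  exact div_self (by positivity)

theorem bf_bar {a b : ℕ} : bf a b ((a : ℤ) - (12 * b + 2)) = (a : ℝ) ^ 2 / (12 * b + 2) ^ 2 := by
  rw [wd_Fun_lo le_rfl]
  push_cast
  have e1 : (a : ℝ) - ((a : ℝ) - (12 * b + 2)) = 12 * b + 2 := by ring
  rw [e1]

theorem bf_mono (a b : ℕ) : Monotone (bf a b) := by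
  refine monotone_int_of_le_succ fun s => ?_
  have hb0 : (0 : ℝ) ≤ b := Nat.cast_nonneg b
  rcases le_or_gt (s + 1) ((a : ℤ) - (12 * b + 2)) with h | h
  · have h1 := wd_Fun_D_lo h
    have h2 := wd_Fun_le h
    have h3 : 0 < (a : ℝ) - s - 1 := by linarith
    have h4 : (a : ℝ) ^ 2 / ((a : ℝ) - s - 1 + 1) ^ 2 ≤ (a : ℝ) ^ 2 / ((a : ℝ) - s - 1) ^ 2 := by
      apply div_le_div_of_nonneg_left (by positivity) (by positivity)
      apply pow_le_pow_left₀ h3.le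
      linarith
    linarith
  · have h1 := wd_Fun_D_hi (a := a) (b := b) (s := s) (by omega)
    have h2 := wd_Fun_slope a b
    linarith

theorem bf_D_mono (a b : ℕ) : Monotone fun s : ℤ => bf a b (s + 1) - bf a b s := by
  refine monotone_int_of_le_succ fun s => ?_
  have hb0 : (0 : ℝ) ≤ b := Nat.cast_nonneg b
  change bf a b (s + 1) - bf a b s ≤ bf a b (s + 1 + 1) - bf a b (s + 1)
  rcases le_or_gt (s + 1 + 1) ((a : ℤ) - (12 * b + 2)) with h | h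
  · rw [wd_Fun_D_lo h, wd_Fun_D_lo (by linarith)]
    have h2 := wd_Fun_le h
    push_cast at h2 ⊢
    have e1 : (a : ℝ) - s - 1 = ((a : ℝ) - (s + 1) - 1) + 1 := by ring
    rw [e1]
    exact wd_Fun_conv a (by linarith)
  · rw [wd_Fun_D_hi (a := a) (b := b) (s := s + 1) (by omega)]
    rcases le_or_gt (s + 1) ((a : ℤ) - (12 * b + 2)) with h' | h'
    · have h3 : s + 1 = (a : ℤ) - (12 * b + 2) := by omega
      rw [wd_Fun_D_lo h']
      have h4 : (s : ℝ) + 1 = (a : ℝ) - (12 * b + 2) := by exact_mod_cast h3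
      have e1 : (a : ℝ) - s - 1 = 12 * b + 2 := by linarith
      have e2 : (12 : ℝ) * b + 2 + 1 = 12 * b + 3 := by ring
      rw [e1, e2]
    · rw [wd_Fun_D_hi (a := a) (b := b) (s := s) (by omega)]

theorem bf_D {a b : ℕ} (hb : 0 < b) (s : ℤ) :
    6 * b * (bf a b (s + 1) - bf a b s) ≤ bf a b s := by
  have hb0 : (0 : ℝ) ≤ b := Nat.cast_nonneg b
  have hlo : ∀ v : ℤ, v + 1 ≤ (a : ℤ) - (12 * b + 2) →
      6 * b * (bf a b (v + 1) - bf a b v) ≤ bf a b v := by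
    intro v h
    rw [wd_Fun_D_lo h, wd_Fun_lo (a := a) (b := b) (s := v) (by linarith)]
    have h1 := wd_Fun_six (a : ℝ) hb0 (wd_Fun_le h)
    have e1 : (a : ℝ) - v - 1 + 1 = (a : ℝ) - v := by ring
    rw [e1] at h1 ⊢
    exact h1
  rcases le_or_gt (s + 1) ((a : ℤ) - (12 * b + 2)) with h | h
  · exact hlo s h
  · have h1 := hlo ((a : ℤ) - (12 * b + 2) - 1) (by linarith)
    have h2 : bf a b ((a : ℤ) - (12 * b + 2) - 1) ≤ bf a b s := bf_mono a b (by omega)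
    have h4 : bf a b (s + 1) - bf a b s =
        bf a b ((a : ℤ) - (12 * b + 2) - 1 + 1) - bf a b ((a : ℤ) - (12 * b + 2) - 1) := by
      rw [wd_Fun_D_hi (a := a) (b := b) (s := s) (by omega), wd_Fun_D_lo (by linarith)]
      push_cast
      have e1 : (a : ℝ) - ((a : ℝ) - (12 * b + 2) - 1) - 1 = 12 * b + 2 := by ring
      have e2 : (12 : ℝ) * b + 2 + 1 = 12 * b + 3 := by ring
      rw [e1, e2]
    rw [h4]
    exact h1.trans h2

end Pool.Agent.Helper72.WD
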