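import Pool.Agent.Helper72.WD.Fun

/-!
# Project WD (MP_c8f8f3_co), module F2: second differences of the barrier function

PROOFS.  Write `w = a - u`, `w0 = 12 b + 2`.  `bf_second` for `u ≤ a - w0 - 1`:
`a² (1/(w-1)² - 2/w² + 1/(w+1)²) = a² (6 w² - 2) / (w² (w² - 1)²) ≤ 7 a² / w⁴` as
`w⁴ - 12 w² + 7 ≥ 0` for `w ≥ 4`; for `u ≥ a - w0` the second difference is `0` (linear part).
`bf_g`: `D c - D (c - j) ≤ j E` (induction on `j`), where `E = 7 / a² * bf s * bf t` bounds all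
second differences at `u ≤ c` (`bf_mono`, `bf_pos`); then
`m D c - (f (c+1) - f (c+1-m)) ≤ m² / 2 * E` by induction on `m`.
-/

set_option autoImplicit false

namespace Pool.Agent.Helper72.WD

theorem wd_Fun2_quart (a : ℝ) {w : ℝ} (hw : 4 ≤ w) :
    (a ^ 2 / (w - 1) ^ 2 - a ^ 2 / w ^ 2) - (a ^ 2 / w ^ 2 - a ^ 2 / (w + 1) ^ 2) ≤
      7 * a ^ 2 / w ^ 4 := by
  have h1 : w ≠ 0 := by linarith
  have h2 : w - 1 ≠ 0 := by
    have : 0 < w - 1 := by linarith
    exact this.ne'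
  have h3 : w + 1 ≠ 0 := by
    have : 0 < w + 1 := by linarith
    exact this.ne'
  have key : 7 * a ^ 2 / w ^ 4 -
      ((a ^ 2 / (w - 1) ^ 2 - a ^ 2 / w ^ 2) - (a ^ 2 / w ^ 2 - a ^ 2 / (w + 1) ^ 2)) =
      a ^ 2 * (w ^ 4 - 12 * w ^ 2 + 7) / (w ^ 4 * (w - 1) ^ 2 * (w + 1) ^ 2) := by
    field_simp
    ring
  have h4 : 0 ≤ w ^ 4 - 12 * w ^ 2 + 7 := by
    have h5 : 16 ≤ w ^ 2 := by nlinarith
    have h6 : w ^ 4 - 12 * w ^ 2 + 7 = w ^ 2 * (w ^ 2 - 12) + 7 := by ring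
    rw [h6]
    have h7 : 0 ≤ w ^ 2 * (w ^ 2 - 12) := mul_nonneg (sq_nonneg w) (by linarith)
    linarith
  have h8 : 0 ≤ a ^ 2 * (w ^ 4 - 12 * w ^ 2 + 7) / (w ^ 4 * (w - 1) ^ 2 * (w + 1) ^ 2) := by
    apply div_nonneg (mul_nonneg (sq_nonneg a) h4)
    positivity
  linarith

theorem bf_second {a b : ℕ} (ha : 0 < a) (hb : 0 < b) (u : ℤ) :
    (bf a b (u + 1) - bf a b u) - (bf a b u - bf a b (u - 1)) ≤ 7 / (a : ℝ) ^ 2 * bf a b u ^ 2 := by
  have ha0 : (0 : ℝ) < a := by exact_mod_cast ha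
  have hb0 : (1 : ℝ) ≤ b := by exact_mod_cast hb
  have hnn : 0 ≤ 7 / (a : ℝ) ^ 2 * bf a b u ^ 2 := by positivity
  rcases le_or_gt (u + 1) ((a : ℤ) - (12 * b + 2)) with h | h
  · have h1 := wd_Fun_D_lo h
    have h2 := wd_Fun_D_lo (a := a) (b := b) (s := u - 1) (by linarith)
    have h3 := wd_Fun_le h
    have e0 : u - 1 + 1 = u := by ring
    rw [e0] at h2
    have h4 := wd_Fun2_quart (a : ℝ) (w := (a : ℝ) - u) (by linarith)
    have e1 : (a : ℝ) - u - 1 + 1 = (a : ℝ) - u := by ring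
    have e2 : (a : ℝ) - ((u - 1 : ℤ) : ℝ) - 1 = (a : ℝ) - u := by push_cast; ring
    have e3 : (a : ℝ) - ((u - 1 : ℤ) : ℝ) - 1 + 1 = (a : ℝ) - u + 1 := by push_cast; ring
    rw [e1] at h1
    rw [e3, e2] at h2
    rw [h1, h2]
    refine h4.trans (le_of_eq ?_)
    rw [wd_Fun_lo (a := a) (b := b) (s := u) (by linarith)]
    have h5 : (a : ℝ) - u ≠ 0 := by
      have : 0 < (a : ℝ) - u := by linarith
      exact this.ne'
    field_simp
  · have h1 := wd_Fun_D_hi (a := a) (b := b) (s := u) (by omega)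
    rcases le_or_gt ((a : ℤ) - (12 * b + 2)) (u - 1) with h' | h'
    · have h2 := wd_Fun_D_hi (a := a) (b := b) (s := u - 1) h'
      rw [sub_add_cancel] at h2
      rw [h1, h2, sub_self]
      exact hnn
    · have h3 : u = (a : ℤ) - (12 * b + 2) := by omega
      have h2 := wd_Fun_D_lo (a := a) (b := b) (s := u - 1) (by linarith)
      rw [sub_add_cancel] at h2
      have h4 : (u : ℝ) = (a : ℝ) - (12 * b + 2) := by exact_mod_cast h3
      have e2 : (a : ℝ) - ((u - 1 : ℤ) : ℝ) - 1 = 12 * b + 2 := by push_cast; linarith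
      have e3 : (a : ℝ) - ((u - 1 : ℤ) : ℝ) - 1 + 1 = 12 * b + 3 := by push_cast; linarith
      rw [e3, e2] at h2
      rw [h1, h2, sub_self]
      exact hnn

theorem bf_g {a b : ℕ} (ha : 0 < a) (hb : 0 < b) {c s t : ℤ} (hcs : c ≤ s) (hst : s ≤ t) :
    b * (bf a b (c + 1) - bf a b c) - (bf a b (c + 1) - bf a b (c + 1 - b)) ≤
      7 * (b : ℝ) ^ 2 / (2 * (a : ℝ) ^ 2) * bf a b s * bf a b t := by
  have ha0 : (0 : ℝ) < a := by exact_mod_cast ha
  set E : ℝ := 7 / (a : ℝ) ^ 2 * (bf a b s * bf a b t) with hE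
  have hs := bf_pos (b := b) ha s
  have ht := bf_pos (b := b) ha t
  have hE0 : 0 ≤ E := by rw [hE]; positivity
  have h2 : ∀ v : ℤ, v ≤ c →
      (bf a b (v + 1) - bf a b v) - (bf a b v - bf a b (v - 1)) ≤ E := by
    intro v hv
    refine (bf_second ha hb v).trans ?_
    rw [hE]
    apply mul_le_mul_of_nonneg_left _ (by positivity)
    rw [sq]
    exact mul_le_mul (bf_mono a b (hv.trans hcs)) (bf_mono a b ((hv.trans hcs).trans hst))
      (bf_pos ha v).le hs.le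
  have h3 : ∀ j : ℕ, (bf a b (c + 1) - bf a b c) - (bf a b (c - j + 1) - bf a b (c - j)) ≤
      j * E := by
    intro j
    induction j with
    | zero => simp
    | succ j ih =>
      have h4 := h2 (c - j) (by omega)
      have e1 : c - ((j + 1 : ℕ) : ℤ) + 1 = c - j := by push_cast; ring
      have e2 : c - ((j + 1 : ℕ) : ℤ) = c - j - 1 := by push_cast; ring
      rw [e1, e2]
      push_cast
      linarith
  have h5 : ∀ m : ℕ, m * (bf a b (c + 1) - bf a b c) - (bf a b (c + 1) - bf a b (c + 1 - m)) ≤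
      (m : ℝ) ^ 2 / 2 * E := by
    intro m
    induction m with
    | zero => simp
    | succ m ih =>
      have h6 := h3 m
      have e1 : c + 1 - ((m + 1 : ℕ) : ℤ) = c - m := by push_cast; ring
      have e2 : c + 1 - (m : ℤ) = c - m + 1 := by ring
      rw [e1]
      rw [e2] at ih
      push_cast
      have e3 : ((m : ℝ) + 1) ^ 2 / 2 * E = (m : ℝ) ^ 2 / 2 * E + m * E + E / 2 := by ring
      rw [e3]
      linarith
  refine (h5 b).trans (le_of_eq ?_)
  rw [hE]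
  field_simp

end Pool.Agent.Helper72.WD
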